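import Pool.Agent.TH189.Aut5
import Mathlib.Analysis.Calculus.Deriv.ZPow

/-!
Linear automorphisms and tangent vector fields (helper file).
-/

set_option autoImplicit false
set_option maxHeartbeats 400000

namespace Pool.Agent.T6.H20.CT

open Module MvPolynomial Pool.Agent.H929R2.Hart Pool.Agent.TH189.Aut

variable {σ : Type} [Fintype σ] [DecidableEq σ] {I : Ideal (MvPolynomial σ ℂ)}

/-- the chain rule -/
theorem hasDerivAt_eval (F : MvPolynomial σ ℂ) (γ : ℂ → σ → ℂ) (γ' : σ → ℂ) (t0 : ℂ)
    (hγ : ∀ k, HasDerivAt (fun t => γ t k) (γ' k) t0) :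
    HasDerivAt (fun t => eval (γ t) F) (∑ k, eval (γ t0) (pderiv k F) * γ' k) t0 := by
  induction F using MvPolynomial.induction_on with
  | C a =>
    simp only [eval_C, pderiv_C, map_zero, zero_mul, Finset.sum_const_zero]
    exact hasDerivAt_const t0 a
  | add p q hp hq =>
    have h := hp.add hq
    simp only [map_add, add_mul, Finset.sum_add_distrib]
    exact h
  | mul_X p i hp =>
    have h := hp.mul (hγ i)
    have e : (∑ k, eval (γ t0) (pderiv k (p * X i)) * γ' k) =
        (∑ k, eval (γ t0) (pderiv k p) * γ' k) * γ t0 i + eval (γ t0) p * γ' i := by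
      rw [Finset.sum_mul]
      have h2 : eval (γ t0) p * γ' i = ∑ k, eval (γ t0) p * (if k = i then γ' k else 0) := by
        rw [← Finset.mul_sum, Finset.sum_ite_eq' Finset.univ i, if_pos (Finset.mem_univ _)]
      rw [h2, ← Finset.sum_add_distrib]
      refine Finset.sum_congr rfl fun k _ => ?_
      rw [Derivation.leibniz, smul_eq_mul, smul_eq_mul, map_add, map_mul, map_mul, eval_X,
        pderiv_X]
      by_cases hk : k = i
      · subst hk
        rw [Pi.single_eq_same, map_one, if_pos rfl]
        ring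
      · rw [Pi.single_eq_of_ne' hk, map_zero, if_neg hk]
        ring
    rw [e]
    simp only [map_mul, eval_X]
    exact h

/-- the linear vector field `N` is tangent to the cone -/
def Tang (I : Ideal (MvPolynomial σ ℂ)) (N : Matrix σ σ ℂ) : Prop :=
  ∀ x ∈ cone I, ∀ F ∈ I, ∑ k, eval x (pderiv k F) * N.mulVec x k = 0

/-- tangent vectors from curves -/
theorem tang_curve {γ : ℂ → σ → ℂ} {γ' : σ → ℂ} {t0 : ℂ}
    (hγ : ∀ k, HasDerivAt (fun t => γ t k) (γ' k) t0)
    (hc : ∀ᶠ t in nhds t0, γ t ∈ cone I) {F : MvPolynomial σ ℂ} (hF : F ∈ I) :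
    ∑ k, eval (γ t0) (pderiv k F) * γ' k = 0 := by
  have h1 := hasDerivAt_eval F γ γ' t0 hγ
  have h2 : (fun t => eval (γ t) F) =ᶠ[nhds t0] fun _ => 0 := by
    filter_upwards [hc] with t ht
    exact ht F hF
  have h3 : HasDerivAt (fun t => eval (γ t) F) 0 t0 :=
    (hasDerivAt_const t0 (0 : ℂ)).congr_of_eventuallyEq h2
  exact h1.unique h3

/-- the hypotheses on the variety: it has no tangent linear vector field which does not vanish on
the projective variety -/
structure HypT (I : Ideal (MvPolynomial σ ℂ)) : Prop where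
  prime : I.IsPrime
  hom : ∀ F ∈ I, ∀ d, homogeneousComponent d F ∈ I
  ne : ∃ x ∈ cone I, x ≠ 0
  no : ∀ N : Matrix σ σ ℂ, Tang I N → ∃ c : ℂ, ∀ x ∈ cone I, N.mulVec x = c • x

/-- the nilpotent part acts trivially -/
theorem exK_deriv (N : Matrix σ σ ℂ) (m : ℕ) (hN : N ^ (m + 1) = 0) (x : σ → ℂ) (k : σ) :
    HasDerivAt (fun t : ℂ => (exK N m t).mulVec x k) (N.mulVec x k) 0 := by
  have h1 : (fun t : ℂ => (exK N m t).mulVec x k) = fun t =>
      ∑ j ∈ Finset.range (m + 1), t ^ j * ((j.factorial : ℂ)⁻¹ * (N ^ j).mulVec x k) := by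
    funext t
    rw [exK_mulVec, Finset.sum_apply]
    refine Finset.sum_congr rfl fun j _ => ?_
    rw [Pi.smul_apply, smul_eq_mul]
    ring
  rw [h1]
  have h2 : ∀ j : ℕ, HasDerivAt (fun t : ℂ => t ^ j * ((j.factorial : ℂ)⁻¹ * (N ^ j).mulVec x k))
      (if j = 1 then N.mulVec x k else 0) 0 := by
    intro j
    have h3 := (hasDerivAt_pow j (0 : ℂ)).mul_const ((j.factorial : ℂ)⁻¹ * (N ^ j).mulVec x k)
    have h4 : (j : ℂ) * 0 ^ (j - 1) * ((j.factorial : ℂ)⁻¹ * (N ^ j).mulVec x k) =
        if j = 1 then N.mulVec x k else 0 := by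
      rcases j with _ | _ | j
      · simp
      · simp
      · rw [if_neg (by omega)]
        simp
    rw [h4] at h3
    exact h3
  have h3 := HasDerivAt.fun_sum fun j (_ : j ∈ Finset.range (m + 1)) => h2 j
  have h4 : ∑ j ∈ Finset.range (m + 1), (if j = 1 then N.mulVec x k else 0) = N.mulVec x k := by
    rw [Finset.sum_ite_eq']
    split_ifs with h5
    · rfl
    · have h6 : m = 0 := by
        rw [Finset.mem_range] at h5
        omega
      subst h6
      rw [zero_add, pow_one] at hN
      rw [hN, Matrix.zero_mulVec]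
      rfl
  rw [h4] at h3
  exact h3

/-- Every linear automorphism is semisimple on the span. -/
theorem semisimple_of (H : HypT I) (h : End ℂ (Sp I)) (hinj : Function.Injective h)
    (hp : Pres I h) : h.IsSemisimple := by
  classical
  obtain ⟨W, hW⟩ := Submodule.exists_isCompl (Sp I)
  let e : (σ → ℂ) →ₗ[ℂ] (σ → ℂ) := LinearMap.ofIsCompl hW ((Sp I).subtype ∘ₗ h) W.subtype
  have he : ∀ v : Sp I, e v = (h v : σ → ℂ) := fun v => LinearMap.ofIsCompl_apply_left hW v
  have heW : ∀ v : W, e v = v := fun v => LinearMap.ofIsCompl_apply_right hW v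
  have heinj : Function.Injective e := by
    rw [← LinearMap.ker_eq_bot, LinearMap.ker_eq_bot']
    intro x hx
    obtain ⟨v, w, hvw⟩ : ∃ (v : Sp I) (w : W), (v : σ → ℂ) + w = x := by
      have : x ∈ Sp I ⊔ W := by rw [hW.sup_eq_top]; exact Submodule.mem_top
      obtain ⟨v, hv, w, hw, h1⟩ := Submodule.mem_sup.1 this
      exact ⟨⟨v, hv⟩, ⟨w, hw⟩, h1⟩
    rw [← hvw, map_add, he, heW] at hx
    have h1 : (h v : σ → ℂ) = 0 := by
      have h2 : (h v : σ → ℂ) ∈ Sp I ⊓ W := by
        refine ⟨(h v).2, ?_⟩
        have h3 : (h v : σ → ℂ) = -(w : σ → ℂ) := eq_neg_of_add_eq_zero_left hx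
        rw [h3]
        exact W.neg_mem w.2
      rw [hW.inf_eq_bot] at h2
      exact (Submodule.mem_bot ℂ).1 h2
    have h2 : (w : σ → ℂ) = 0 := by rw [h1, zero_add] at hx; exact hx
    have h3 : v = 0 := by
      apply hinj
      rw [map_zero]
      exact Subtype.ext h1
    rw [← hvw, h3, h2]
    simp
  set M : Matrix σ σ ℂ := LinearMap.toMatrix' e with hM
  have hMe : ∀ x, M.mulVec x = e x := fun x => LinearMap.toMatrix'_mulVec e x
  have hMu : IsUnit M := by
    rw [← Matrix.mulVec_injective_iff_isUnit]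
    intro x y hxy
    apply heinj
    rw [← hMe, ← hMe]
    exact hxy
  have hMc : ∀ x ∈ cone I, M.mulVec x ∈ cone I := by
    intro x hx
    rw [hMe]
    have := he ⟨x, mem_sp hx⟩
    rw [this]
    exact hp _ hx
  obtain ⟨P, P', μ, N, m, h1, h2, hμ, hN, hcomm, hgP⟩ := exists_jordan M hMu
  have hcl := jordan_closure (chI I P') μ hμ N m hN hcomm (fun x hx => by
      rw [← hgP, mem_cone_chI h1 h2, Matrix.mulVec_mulVec]
      have h4 : P * (P' * M * P) = M * P := by
        rw [← Matrix.mul_assoc, ← Matrix.mul_assoc, h1, Matrix.one_mul]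
      rw [h4, ← Matrix.mulVec_mulVec]
      exact hMc _ ((mem_cone_chI h1 h2 x).1 hx))
  have hP'c : ∀ x ∈ cone I, P'.mulVec x ∈ cone (chI I P') := by
    intro x hx
    rw [mem_cone_chI h1 h2, Matrix.mulVec_mulVec, h1, Matrix.one_mulVec]
    exact hx
  -- the nilpotent part
  have hexc : ∀ x ∈ cone I, ∀ t : ℂ, P.mulVec ((exK N m t).mulVec (P'.mulVec x)) ∈ cone I := by
    intro x hx t
    have h3 := hcl (P'.mulVec x) (hP'c x hx) 0 t
    rw [pow_zero, one_mul, mem_cone_chI h1 h2] at h3
    exact h3
  have htang : Tang I (P * N * P') := by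
    intro x hx F hF
    have h3 := tang_curve (I := I) (γ := fun t => P.mulVec ((exK N m t).mulVec (P'.mulVec x)))
      (γ' := P.mulVec (N.mulVec (P'.mulVec x))) (t0 := 0) (fun k => by
        have h4 := HasDerivAt.fun_sum fun j (_ : j ∈ (Finset.univ : Finset σ)) =>
          (exK_deriv N m hN (P'.mulVec x) j).const_mul (P k j)
        exact h4) (Filter.Eventually.of_forall fun t => hexc x hx t) hF
    simp only [exK_zero, Matrix.one_mulVec] at h3
    rw [Matrix.mulVec_mulVec, h1, Matrix.one_mulVec] at h3
    rw [← Matrix.mulVec_mulVec, ← Matrix.mulVec_mulVec]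
    exact h3
  obtain ⟨c, hc⟩ := H.no _ htang
  have hNz : ∀ x ∈ cone I, N.mulVec (P'.mulVec x) = 0 := by
    intro x hx
    by_cases hx0 : x = 0
    · rw [hx0, Matrix.mulVec_zero, Matrix.mulVec_zero]
    have h3 := hc x hx
    have h4 : N.mulVec (P'.mulVec x) = c • P'.mulVec x := by
      have h5 := congrArg P'.mulVec h3
      rw [Matrix.mulVec_mulVec, ← Matrix.mul_assoc, ← Matrix.mul_assoc, h2, Matrix.one_mul,
        Matrix.mulVec_smul, ← Matrix.mulVec_mulVec] at h5
      exact h5
    have h5 : ∀ k : ℕ, (N ^ k).mulVec (P'.mulVec x) = c ^ k • P'.mulVec x := by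
      intro k
      induction k with
      | zero => simp
      | succ k ih => rw [pow_succ, ← Matrix.mulVec_mulVec, h4, Matrix.mulVec_smul, ih, smul_smul,
          pow_succ, mul_comm]
    have h6 := h5 (m + 1)
    rw [hN, Matrix.zero_mulVec] at h6
    have hPx : P'.mulVec x ≠ 0 := by
      intro h7
      apply hx0
      have h8 := congrArg P.mulVec h7
      rwa [Matrix.mulVec_mulVec, h1, Matrix.one_mulVec, Matrix.mulVec_zero] at h8
    have h7 := (smul_eq_zero.1 h6.symm).resolve_right hPx
    rw [h4, pow_eq_zero_iff (by omega) |>.1 h7, zero_smul]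
  have hex : ∀ x ∈ cone I, M.mulVec x = (P * Matrix.diagonal μ * P').mulVec x := by
    intro x hx
    have h3 : M = P * (Matrix.diagonal μ * exK N m 1) * P' := by
      rw [← hgP]
      calc M = (P * P') * M * (P * P') := by rw [h1, Matrix.one_mul, Matrix.mul_one]
        _ = _ := by simp only [Matrix.mul_assoc]
    have h4 : (exK N m 1).mulVec (P'.mulVec x) = P'.mulVec x := by
      rw [exK_mulVec, Finset.sum_eq_single 0]
      · simp
      · intro j _ hj
        obtain ⟨j', rfl⟩ : ∃ j', j = j' + 1 := ⟨j - 1, by omega⟩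
        rw [pow_succ N, ← Matrix.mulVec_mulVec, hNz x hx, Matrix.mulVec_zero, smul_zero]
      · intro h; exact absurd (Finset.mem_range.2 (Nat.succ_pos m)) h
    rw [h3, ← Matrix.mulVec_mulVec, ← Matrix.mulVec_mulVec, ← Matrix.mulVec_mulVec, h4,
      ← Matrix.mulVec_mulVec, ← Matrix.mulVec_mulVec]
  -- the semisimple part
  set S : End ℂ (σ → ℂ) := (P * Matrix.diagonal μ * P').mulVecLin with hS
  have hSss : S.IsSemisimple := by
    classical
    refine End.isSemisimple_of_squarefree_aeval_eq_zero
      (p := ∏ c ∈ Finset.univ.image μ, (Polynomial.X - Polynomial.C c)) ?_ ?_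
    · have h3 : (∏ c ∈ Finset.univ.image μ, (Polynomial.X - Polynomial.C c)).Separable :=
        Polynomial.separable_prod_X_sub_C_iff' (f := fun c : ℂ => c) |>.2
          (fun x _ y _ hxy => hxy)
      exact h3.squarefree
    · have h3 : ∀ q : Polynomial ℂ, Polynomial.aeval S q =
          (P * Matrix.diagonal (fun i => q.eval (μ i)) * P').mulVecLin := by
        intro q
        induction q using Polynomial.induction_on' with
        | add p q hp hq =>
          rw [map_add, hp, hq, ← Matrix.mulVecLin_add, ← Matrix.add_mul, ← Matrix.mul_add,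
            Matrix.diagonal_add]
          simp only [Polynomial.eval_add]
        | monomial k a =>
          rw [Polynomial.aeval_monomial]
          have h5 : ∀ k : ℕ, S ^ k = (P * Matrix.diagonal (fun i => μ i ^ k) * P').mulVecLin := by
            intro k
            induction k with
            | zero =>
              simp only [pow_zero, Matrix.diagonal_one, Matrix.mul_one, h1, Matrix.mulVecLin_one]
              rfl
            | succ k ih =>
              rw [pow_succ, ih, hS, Module.End.mul_eq_comp, ← Matrix.mulVecLin_mul]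
              congr 1
              calc P * Matrix.diagonal (fun i => μ i ^ k) * P' * (P * Matrix.diagonal μ * P')
                  = P * Matrix.diagonal (fun i => μ i ^ k) * (P' * P) * Matrix.diagonal μ * P' := by
                    simp only [Matrix.mul_assoc]
                _ = _ := by
                    rw [h2, Matrix.mul_one, Matrix.mul_assoc P, Matrix.diagonal_mul_diagonal]
                    simp only [pow_succ]
          rw [h5, Algebra.algebraMap_eq_smul_one, smul_one_mul]
          have h6 : (fun i => (Polynomial.monomial k a).eval (μ i)) = a • fun i => μ i ^ k := by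
            funext i
            simp [Polynomial.eval_monomial]
          rw [h6, Matrix.diagonal_smul, Matrix.mul_smul, Matrix.smul_mul]
          ext v i
          simp
      rw [h3]
      have h4 : (fun i => (∏ c ∈ Finset.univ.image μ, (Polynomial.X - Polynomial.C c)).eval
          (μ i)) = fun _ => 0 := by
        funext i
        rw [Polynomial.eval_prod]
        refine Finset.prod_eq_zero (Finset.mem_image_of_mem μ (Finset.mem_univ i)) ?_
        simp
      rw [h4]
      have h5 : Matrix.diagonal (fun _ : σ => (0 : ℂ)) = 0 := Matrix.diagonal_zero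
      rw [h5, Matrix.mul_zero, Matrix.zero_mul, Matrix.mulVecLin_zero]
  have hSh : ∀ v : Sp I, S v = (h v : σ → ℂ) := by
    intro v
    obtain ⟨x, hx⟩ := v
    have h3 : ∀ x ∈ Sp I, S x = e x := by
      intro x hx
      induction hx using Submodule.span_induction with
      | mem x hx => rw [← hMe, hex x hx, hS, Matrix.mulVecLin_apply]
      | zero => rw [map_zero, map_zero]
      | add x y _ _ h1 h2 => rw [map_add, map_add, h1, h2]
      | smul c x _ h1 => rw [map_smul, map_smul, h1]
    rw [← he, h3 x hx]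
  have hinv0 : ∀ v ∈ Sp I, S v ∈ Sp I := by
    intro v hv
    have := hSh ⟨v, hv⟩
    rw [this]
    exact (h ⟨v, hv⟩).2
  have hinv : Sp I ∈ S.invtSubmodule := fun v hv => hinv0 v hv
  have h3 : h = S.restrict hinv0 := by
    ext1 v
    apply Subtype.ext
    rw [← hSh]
    rfl
  rw [h3]
  exact hSss.restrict hinv

end Pool.Agent.T6.H20.CT
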