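import Pool.Agent.W467.FG.F

/-!
A ratio of forms on a smooth projective variety which is defined everywhere is constant
(helper file; the argument of `W467.FG.C` for arbitrary families of pairs of forms).
-/

set_option autoImplicit false
set_option maxHeartbeats 400000

open MvPolynomial H960VB H938TB Pool.Agent.W615 Pool.Agent.W467.FO Pool.Agent.W467.FX

namespace Pool.Agent.T6.H20.CT

variable {n : ℕ} {E : Bundle2 n} {s : Vec E.a n} {I : Ideal (MvPolynomial (Fin (n + 1)) ℂ)}
variable (Z : ZS E s I)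

include Z in
/-- the ratio is constant -/
theorem const_ratio (PP : Set (MvPolynomial (Fin (n + 1)) ℂ × MvPolynomial (Fin (n + 1)) ℂ))
    (hhom : ∀ p ∈ PP, ∃ N : ℤ, HomZ p.1 N ∧ HomZ p.2 N)
    (hpt : ∀ x ∈ cone I, x ≠ 0 → ∃ e : ℂ, ∀ p ∈ PP, eval x p.1 = e * eval x p.2)
    (hnz : ∀ x ∈ cone I, x ≠ 0 → ∃ p ∈ PP, eval x p.2 ≠ 0) :
    ∃ μ : ℂ, ∀ x ∈ cone I, x ≠ 0 → ∀ p ∈ PP, eval x p.1 = μ * eval x p.2 := by
  classical
  have hI := Z.prime
  let X' := {x : Fin (n + 1) → ℂ // x ∈ cone I ∧ x ≠ 0}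
  have h0 := fun x : X' => hpt x.1 x.2.1 x.2.2
  choose e he using h0
  have he_smul : ∀ (x : X') (t : ℂ) (ht : t ≠ 0),
      e ⟨t • x.1, Z.cone_smul x.2.1 ht x.2.2, smul_ne_zero ht x.2.2⟩ = e x := by
    intro x t ht
    obtain ⟨p, hp, hd⟩ := hnz x.1 x.2.1 x.2.2
    obtain ⟨N, hN1, hN2⟩ := hhom p hp
    have h1 := he ⟨t • x.1, Z.cone_smul x.2.1 ht x.2.2, smul_ne_zero ht x.2.2⟩ p hp
    have h2 := he x p hp
    have h3 := eval_smul_homZ hN1 t x.1
    have h4 := eval_smul_homZ hN2 t x.1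
    simp only at h1
    rw [h3, h4, h2] at h1
    have h5 := zpow_ne_zero N ht
    apply mul_right_cancel₀ (mul_ne_zero h5 hd)
    rw [← h1]
    ring
  -- the ideal of denominators
  let J : Ideal (MvPolynomial (Fin (n + 1)) ℂ) :=
    { carrier := {D | ∃ h : MvPolynomial (Fin (n + 1)) ℂ, ∀ x : X',
        eval x.1 h = e x * eval x.1 D}
      add_mem' := by
        rintro f g ⟨u, hu⟩ ⟨v, hv⟩
        exact ⟨u + v, fun x => by rw [map_add, hu x, hv x, map_add, mul_add]⟩
      zero_mem' := ⟨0, fun x => by rw [map_zero, mul_zero]⟩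
      smul_mem' := by
        rintro g f ⟨u, hu⟩
        exact ⟨g * u, fun x => by rw [smul_eq_mul, map_mul, map_mul, hu x]; ring⟩ }
  have hzero : ∀ x ∈ zeroLocus ℂ J, x = 0 := by
    intro x hx
    by_contra hx0
    have hx' : ∀ D ∈ J, eval x D = 0 := fun D hD => by
      have := hx D hD
      simpa [MvPolynomial.aeval_eq_eval] using this
    have hxc : x ∈ cone I := by
      intro F hF
      apply hx'
      exact ⟨0, fun y => by rw [y.2.1 F hF, mul_zero, map_zero]⟩
    obtain ⟨p, hp, hd⟩ := hnz x hxc hx0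
    exact hd (hx' _ ⟨p.1, fun y => he y p hp⟩)
  have hrad : ∀ i : Fin (n + 1), ∃ N : ℕ, X i ^ N ∈ J := by
    intro i
    have h1 : (X i : MvPolynomial (Fin (n + 1)) ℂ) ∈ J.radical := by
      rw [← vanishingIdeal_zeroLocus_eq_radical (K := ℂ) J, mem_vanishingIdeal_iff]
      intro x hx
      rw [hzero x hx]
      simp
    exact h1
  choose Nf hNf using hrad
  set N := ∑ i, Nf i with hN
  have hXN : ∀ i, (X i : MvPolynomial (Fin (n + 1)) ℂ) ^ N ∈ J := fun i =>
    J.pow_mem_of_pow_mem (hNf i) (Finset.single_le_sum (f := Nf) (fun _ _ => Nat.zero_le _)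
      (Finset.mem_univ i))
  set k := (n + 1) * N with hk
  -- all forms of degree `k` are in the ideal
  have hform : ∀ f : MvPolynomial (Fin (n + 1)) ℂ, f.IsHomogeneous k → f ∈ J := by
    intro f hf
    rw [f.as_sum]
    refine J.sum_mem fun u hu => ?_
    have h1 : ∑ i, u i = k := by
      have h4 := hf (mem_support_iff.1 hu)
      rw [Finsupp.weight_apply, Finsupp.sum_fintype _ _ (by simp)] at h4
      simpa using h4
    obtain ⟨i, hi⟩ : ∃ i, N ≤ u i := by
      by_contra hc
      push Not at hc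
      have h2 : ∑ i, u i < ∑ _i : Fin (n + 1), N :=
        Finset.sum_lt_sum_of_nonempty ⟨0, Finset.mem_univ _⟩ fun i _ => hc i
      rw [Finset.sum_const, Finset.card_univ, Fintype.card_fin, smul_eq_mul, h1] at h2
      exact lt_irrefl _ h2
    have h3 : monomial u (coeff u f) =
        monomial (u - Finsupp.single i N) (coeff u f) * X i ^ N := by
      rw [X_pow_eq_monomial, monomial_mul, mul_one]
      congr 1
      rw [tsub_add_cancel_of_le]
      rw [Finsupp.single_le_iff]
      exact hi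
    rw [h3]
    exact J.mul_mem_left _ (hXN i)
  have hcomp : ∀ f : MvPolynomial (Fin (n + 1)) ℂ, f.IsHomogeneous k →
      ∃ h : MvPolynomial (Fin (n + 1)) ℂ, h.IsHomogeneous k ∧ ∀ x : X',
        eval x.1 h = e x * eval x.1 f := by
    intro f hf
    obtain ⟨h, hh⟩ := hform f hf
    refine ⟨homogeneousComponent k h, homogeneousComponent_isHomogeneous k h, fun x => ?_⟩
    have h1 : ph x.1 h = Polynomial.C (e x * eval x.1 f) * Polynomial.X ^ k := by
      apply Polynomial.eq_of_infinite_eval_eq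
      refine Set.Infinite.mono (s := {0}ᶜ) ?_ (Set.finite_singleton (0 : ℂ)).infinite_compl
      intro t ht
      have ht' : t ≠ 0 := ht
      show Polynomial.eval t _ = Polynomial.eval t _
      rw [eval_ph, Polynomial.eval_mul, Polynomial.eval_C, Polynomial.eval_pow, Polynomial.eval_X]
      have h2 := hh ⟨t • x.1, Z.cone_smul x.2.1 ht' x.2.2, smul_ne_zero ht' x.2.2⟩
      simp only at h2
      rw [h2, he_smul x t ht', eval_smul_homZ (p := f) (N := (k : ℤ)) (Or.inr ⟨k, rfl, hf⟩) t x.1,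
        zpow_natCast]
      ring
    rw [← coeff_ph, h1, Polynomial.coeff_C_mul, Polynomial.coeff_X_pow, if_pos rfl, mul_one]
  -- the finite dimensional space of functions
  let ρ : MvPolynomial (Fin (n + 1)) ℂ →ₗ[ℂ] (X' → ℂ) :=
    { toFun := fun p x => eval x.1 p
      map_add' := by
        intro p q
        funext x
        exact map_add _ _ _
      map_smul' := by
        intro c p
        funext x
        exact smul_eval _ _ _ }
  let V := (homogeneousSubmodule (Fin (n + 1)) ℂ k).map ρ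
  have hVfin : FiniteDimensional ℂ V :=
    Module.Finite.iff_fg.2 ((homogeneousSubmodule_fg (Fin (n + 1)) ℂ k).map ρ)
  let Me : (X' → ℂ) →ₗ[ℂ] (X' → ℂ) :=
    { toFun := fun g x => e x * g x
      map_add' := by
        intro g h
        funext x
        exact mul_add _ _ _
      map_smul' := by
        intro c g
        funext x
        show e x * (c * g x) = c * (e x * g x)
        ring }
  have hst' : ∀ v ∈ V, Me v ∈ V := by
    rintro _ ⟨f, hf, rfl⟩
    obtain ⟨h, hh, hhx⟩ := hcomp f ((mem_homogeneousSubmodule k f).1 hf)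
    refine ⟨h, (mem_homogeneousSubmodule k h).2 hh, ?_⟩
    funext x
    exact hhx x
  obtain ⟨x0, hx0, hne⟩ := Z.ne
  obtain ⟨i0, hi0⟩ : ∃ i, x0 i ≠ 0 := by
    by_contra hc
    push Not at hc
    exact hne (funext hc)
  have hnt : Nontrivial V := by
    refine ⟨⟨⟨ρ (X i0 ^ k), ⟨X i0 ^ k, ?_, rfl⟩⟩, 0, ?_⟩⟩
    · have := (isHomogeneous_X ℂ i0).pow k
      rw [one_mul] at this
      exact (mem_homogeneousSubmodule k _).2 this
    · intro h
      have h1 := congrFun (congrArg Subtype.val h) ⟨x0, hx0, hne⟩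
      have h2 : eval x0 (X i0 ^ k) = 0 := h1
      rw [map_pow, eval_X] at h2
      exact pow_ne_zero _ hi0 h2
  obtain ⟨μ, hμ⟩ := Module.End.exists_eigenvalue (Me.restrict hst')
  obtain ⟨v, hv⟩ := hμ.exists_hasEigenvector
  have hv1 := hv.apply_eq_smul
  have hv2 : v ≠ 0 := hv.2
  obtain ⟨f, hf, hfv⟩ := v.2
  have hfx : ∀ x : X', e x * eval x.1 f = μ * eval x.1 f := by
    intro x
    have h1 := congrFun (congrArg Subtype.val hv1) x
    have h2 : e x * (v : X' → ℂ) x = μ * (v : X' → ℂ) x := h1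
    rw [← hfv] at h2
    exact h2
  have hfI : f ∉ I := by
    intro hfI
    apply hv2
    apply Subtype.ext
    rw [← hfv]
    funext x
    exact x.2.1 f hfI
  refine ⟨μ, fun x hx hx0' p hp => ?_⟩
  suffices h : e ⟨x, hx, hx0'⟩ = μ by
    have := he ⟨x, hx, hx0'⟩ p hp
    rw [h] at this
    exact this
  obtain ⟨q, hq, hd⟩ := hnz x hx hx0'
  have h1 : (q.1 - C μ * q.2) * f ∈ I := by
    apply Z.mem_of_vanish
    intro y hy hy0
    have h2 := he ⟨y, hy, hy0⟩ q hq
    have h3 := hfx ⟨y, hy, hy0⟩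
    simp only at h2 h3
    rw [map_mul, map_sub, map_mul, eval_C, h2]
    linear_combination (eval y q.2) * h3
  have h2 := (hI.mem_or_mem h1).resolve_right hfI
  have h3 := hx _ h2
  rw [map_sub, map_mul, eval_C] at h3
  have h4 := he ⟨x, hx, hx0'⟩ q hq
  simp only at h4
  rw [h4] at h3
  apply mul_right_cancel₀ hd
  linear_combination h3

end Pool.Agent.T6.H20.CT
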