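import Pool.Agent.T6.H20.CT.Patch

/-!
The vector field tangent to the zero scheme of a section lifts (helper file).
-/

set_option autoImplicit false
set_option maxHeartbeats 400000

open MvPolynomial H960VB H938TB Pool.Agent.W615 Pool.Agent.W467.FO Pool.Agent.W467.FX

namespace Pool.Agent.T6.H20.CT

/-- powers of three variables form a regular sequence -/
theorem regular_pow {σ : Type*} [DecidableEq σ] {i j k : σ} (hik : i ≠ k) (hjk : j ≠ k)
    (m : ℕ) {t : MvPolynomial σ ℂ}
    (h : X k ^ m * t ∈ Ideal.span ({X i ^ m, X j ^ m} : Set (MvPolynomial σ ℂ))) :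
    t ∈ Ideal.span ({X i ^ m, X j ^ m} : Set (MvPolynomial σ ℂ)) := by
  have e : ({X i ^ m, X j ^ m} : Set (MvPolynomial σ ℂ)) =
      (fun s => monomial s (1 : ℂ)) '' {Finsupp.single i m, Finsupp.single j m} := by
    rw [Set.image_pair, X_pow_eq_monomial, X_pow_eq_monomial]
  rw [e, mem_ideal_span_monomial_image] at h ⊢
  intro u hu
  have h1 : u + Finsupp.single k m ∈ (X k ^ m * t).support := by
    rw [mem_support_iff, X_pow_eq_monomial, add_comm, coeff_monomial_mul, one_mul]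
    exact mem_support_iff.1 hu
  obtain ⟨v, hv, hle⟩ := h _ h1
  refine ⟨v, hv, ?_⟩
  rcases hv with rfl | hv
  · rw [Finsupp.single_le_iff] at hle ⊢
    rwa [Finsupp.add_apply, Finsupp.single_eq_of_ne hik, add_zero] at hle
  · rw [Set.mem_singleton_iff.1 hv] at hle ⊢
    rw [Finsupp.single_le_iff] at hle ⊢
    rwa [Finsupp.add_apply, Finsupp.single_eq_of_ne hjk, add_zero] at hle

variable {n : ℕ} {N : Matrix (Fin (n + 1)) (Fin (n + 1)) ℂ}
variable {E : Bundle2 n} {s : Vec E.a n} {I : Ideal (MvPolynomial (Fin (n + 1)) ℂ)}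
variable (Z : ZS E s I) {W : Wedge (triv E)}
variable (hN : ∀ F ∈ I, vf N F ∈ I)

include Z hN in
/-- powers of the variables are denominators -/
theorem exists_pow_lift (W : Wedge (triv E)) : ∃ (ε : ℂ) (m : ℕ), ∀ i : Fin (n + 1),
    ∃ D, IsQ N W s ε (X i ^ m) D := by
  classical
  have hs := Z.sec.ker
  obtain ⟨θ, hθ⟩ := exists_theta N Z W hN
  let J : Ideal (MvPolynomial (Fin (n + 1)) ℂ) :=
    { carrier := {q | ∃ D, IsQ N W s (-θ) q D}
      add_mem' := by
        rintro f g ⟨u, hu⟩ ⟨v, hv⟩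
        exact ⟨_, hu.sum hs hv⟩
      zero_mem' := ⟨_, IsQ.zero hs⟩
      smul_mem' := by
        rintro g f ⟨u, hu⟩
        exact ⟨_, hu.mul hs g⟩ }
  have hzero : ∀ x ∈ zeroLocus ℂ J, x = 0 := by
    intro x hx
    by_contra hx0
    have hx' : ∀ D ∈ J, eval x D = 0 := fun D hD => by
      have := hx D hD
      simpa [MvPolynomial.aeval_eq_eval] using this
    by_cases hxs : evv s x = 0
    · obtain ⟨q, D, hq, hD⟩ := local_in Z hN hθ hx0 (Z.mem_cone hx0 hxs)
      exact hq (hx' q ⟨D, hD⟩)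
    · obtain ⟨q, D, hq, hD⟩ := local_out (N := N) (W := W) (-θ) hs hx0 hxs
      exact hq (hx' q ⟨D, hD⟩)
  have hrad : ∀ i : Fin (n + 1), ∃ N : ℕ, X i ^ N ∈ J := by
    intro i
    have h1 : (X i : MvPolynomial (Fin (n + 1)) ℂ) ∈ J.radical := by
      rw [← vanishingIdeal_zeroLocus_eq_radical (K := ℂ) J, mem_vanishingIdeal_iff]
      intro x hx
      rw [hzero x hx]
      simp
    exact h1
  choose Nf hNf using hrad
  refine ⟨-θ, ∑ i, Nf i, fun i => ?_⟩
  exact J.pow_mem_of_pow_mem (hNf i) (Finset.single_le_sum (f := Nf) (fun _ _ => Nat.zero_le _)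
      (Finset.mem_univ i))

include Z in
/-- the difference of two lifts with different denominators -/
theorem diff2 (hn : 1 ≤ n) {ε : ℂ} {q q' : MvPolynomial (Fin (n + 1)) ℂ}
    {D D' : Vec E.a n → Vec E.a n} (h : IsQ N W s ε q D) (h' : IsQ N W s ε q' D') :
    ∃ t : MvPolynomial (Fin (n + 1)) ℂ, ∀ K, Ker E K → ∀ i,
      q' * D K i - q * D' K i = t * W.wd s K * s i :=
  diff_eq Z hn ((h.mul Z.sec.ker q').congr (mul_comm _ _)) (h'.mul Z.sec.ker q)

include Z hN in
/-- **the global lift.** -/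
theorem exists_lift (hn : 2 ≤ n) (W : Wedge (triv E)) :
    ∃ (ε : ℂ) (D : Vec E.a n → Vec E.a n), IsQ N W s ε 1 D := by
  classical
  have hs := Z.sec.ker
  obtain ⟨ε, m, hm⟩ := exists_pow_lift Z hN W
  have hn1 : 1 ≤ n := by omega
  set i0 : Fin (n + 1) := ⟨0, by omega⟩ with hi0
  set i1 : Fin (n + 1) := ⟨1, by omega⟩ with hi1
  set i2 : Fin (n + 1) := ⟨2, by omega⟩ with hi2
  have h01 : i0 ≠ i1 := by rw [hi0, hi1]; intro h; simp at h
  have h02 : i0 ≠ i2 := by rw [hi0, hi2]; intro h; simp at h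
  have h12 : i1 ≠ i2 := by rw [hi1, hi2]; intro h; simp at h
  obtain ⟨D0, d0⟩ := hm i0
  obtain ⟨D1, d1⟩ := hm i1
  obtain ⟨D2, d2⟩ := hm i2
  obtain ⟨t01, e01⟩ := diff2 Z hn1 d0 d1
  obtain ⟨t02, e02⟩ := diff2 Z hn1 d0 d2
  obtain ⟨t12, e12⟩ := diff2 Z hn1 d1 d2
  obtain ⟨j, hj⟩ := (s_prime Z W hn1).ne
  obtain ⟨K0, hK0⟩ := family_prime Z W hn1 (X 0) X_prime
  have hf0 : W.wd s K0.1 ≠ 0 := fun h0 => hK0 (h0 ▸ dvd_zero _)
  have key : X i2 ^ m * t01 = X i1 ^ m * t02 - X i0 ^ m * t12 := by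
    apply mul_right_cancel₀ (mul_ne_zero hf0 hj)
    have a1 := e01 K0.1 K0.2 j
    have a2 := e02 K0.1 K0.2 j
    have a3 := e12 K0.1 K0.2 j
    linear_combination (X i1 ^ m) * a2 - (X i2 ^ m) * a1 - (X i0 ^ m) * a3
  have hmem : t01 ∈ Ideal.span ({X i0 ^ m, X i1 ^ m} : Set (MvPolynomial (Fin (n + 1)) ℂ)) := by
    apply regular_pow h02 h12 m
    rw [key]
    exact Ideal.sub_mem _ (Ideal.mul_mem_right _ _ (Ideal.subset_span (Or.inr rfl)))
      (Ideal.mul_mem_right _ _ (Ideal.subset_span (Or.inl rfl)))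
  obtain ⟨u, v, huv⟩ := Ideal.mem_span_pair.1 hmem
  refine ⟨ε, IsQ.div hs (pow_ne_zero m (X_ne_zero i0)) (((d0.subt hs (-v))).congr
    (mul_one _).symm) ?_⟩
  intro K hK i
  have h1 : X i1 ^ m * (D0 K i + -v * W.wd s K * s i) =
      X i0 ^ m * (D1 K i + u * W.wd s K * s i) := by
    have := e01 K hK i
    rw [← huv] at this
    linear_combination this
  refine (X_prime (R := ℂ) (i := i0)).pow_dvd_of_dvd_mul_left m (a := X i1 ^ m) ?_ ⟨_, h1⟩
  intro h2
  have h3 := (X_prime (R := ℂ) (i := i0)).dvd_of_dvd_pow h2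
  rw [X_dvd_X] at h3
  exact h01 h3

section homogenize

variable {ε : ℂ} {D : Vec E.a n → Vec E.a n} (h : IsQ N W s ε 1 D)

theorem sec_unique {d d' : ℤ} {G : Vec E.a n} (h1 : Sec E d G) (h2 : Sec E d' G)
    (h0 : ∃ i, G i ≠ 0) : d = d' := by
  obtain ⟨i, hi⟩ := h0
  have e1 := (h1.hom i).inj_right hi (h2.hom i)
  have e2 := congrArg Prod.fst (add_left_cancel e1)
  exact e2

include h in
theorem D_zero (i : Fin E.a) : D (fun _ => 0) i = 0 := by
  have h1 := h.leib 0 (fun _ => 0) ker_zero i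
  simp only [zero_mul, map_zero, mul_zero, add_zero] at h1
  exact h1

open Classical in
/-- the homogeneous part of the lift -/
noncomputable def Dh (D : Vec E.a n → Vec E.a n) (K : Vec E.a n) : Vec E.a n :=
  if h : ∃ d, Sec E d K then vcomp (triv E) ((h.choose, 0) : M) (D K) else fun _ => 0

include h in
theorem Dh_eq {d : ℤ} {K : Vec E.a n} (hK : Sec E d K) :
    Dh D K = vcomp (triv E) ((d, 0) : M) (D K) := by
  have h1 : ∃ d, Sec E d K := ⟨d, hK⟩
  unfold Dh
  rw [dif_pos h1]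
  by_cases h0 : ∃ i, K i ≠ 0
  · rw [sec_unique h1.choose_spec hK h0]
  · push Not at h0
    have e1 : K = fun _ => 0 := funext h0
    have e2 : D K = fun _ => 0 := by
      funext i
      rw [e1]
      exact D_zero h i
    funext i
    unfold vcomp
    rw [e2, map_zero, map_zero]

include h in
/-- the operator on the sections -/
theorem exists_op_of_lift : ∃ O : Op E N, ∀ d K, Sec E d K → O.D K =
    vcomp (triv E) ((d, 0) : M) (D K) := by
  refine ⟨⟨Dh D, fun d G hG => ?_, fun d G G' hG hG' => ?_, fun d e p G hG hp => ?_⟩,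
    fun d K hK => Dh_eq h hK⟩
  · rw [Dh_eq h hG]
    exact vcomp_sec (h.ker G hG.ker) _
  · rw [Dh_eq h (sec_add hG hG'), Dh_eq h hG, Dh_eq h hG']
    funext i
    unfold vcomp
    rw [← map_add]
    congr 1
    exact h.add G G' hG.ker hG'.ker i
  · rw [Dh_eq h (sec_mul hp hG), Dh_eq h hG]
    funext i
    unfold vcomp
    rw [h.leib p G hG.ker i, one_mul, map_add]
    congr 1
    · have h1 : IsWeightedHomogeneous (tw (0 : Fin (n + 1) → ℤ × ℤ)) (vf N p * G i)
          (((E.β i, (triv E).b i) : M) + ((e + d, 0) : M)) := by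
        have e1 := (wh_triv (vf_homZ N hp)).mul (hG.hom i)
        have e2 : ((e, 0) : M) + (((E.β i, (triv E).b i) : M) + (d, 0)) =
            ((E.β i, (triv E).b i) : M) + ((e + d, 0) : M) := by
          refine Prod.ext ?_ ?_
          · show e + (E.β i + d) = E.β i + (e + d)
            ring
          · show (0 : ℤ × ℤ) + ((triv E).b i + 0) = (triv E).b i + 0
            rw [zero_add]
        rw [← e2]
        exact e1
      exact weightedHomogeneousComponent_eq_self h1
    · have e1 := whc_mul (q := D G i) (wh_triv hp) (((E.β i, (triv E).b i) : M) + (d, 0))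
      have e2 : ((e, 0) : M) + (((E.β i, (triv E).b i) : M) + (d, 0)) =
            ((E.β i, (triv E).b i) : M) + ((e + d, 0) : M) := by
          refine Prod.ext ?_ ?_
          · show e + (E.β i + d) = E.β i + (e + d)
            ring
          · show (0 : ℤ × ℤ) + ((triv E).b i + 0) = (triv E).b i + 0
            rw [zero_add]
      rw [e2] at e1
      exact e1

end homogenize

include Z hN in
/-- **the vector field lifts to the pair of the bundle and the section.** -/
theorem exists_op (hn : 2 ≤ n) : ∃ O : Op E N, O.D s = fun i => C 0 * s i := by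
  obtain ⟨W⟩ := exists_wedge (by omega) (triv E)
  obtain ⟨ε, D, h⟩ := exists_lift Z hN hn W
  obtain ⟨O, hO⟩ := exists_op_of_lift h
  refine ⟨O, ?_⟩
  rw [hO 0 s Z.sec]
  funext i
  unfold vcomp
  rw [h.ds, map_zero, C_0, zero_mul]

end Pool.Agent.T6.H20.CT
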