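import Pool.Agent.T6.H20.CT.Torus
import Pool.Agent.T6.H20.CT.Patch2

/-!
Varieties of codimension two with a tangent linear vector field, in `P^n`, `n ≥ 6` (helper file).
-/

set_option autoImplicit false
set_option maxHeartbeats 800000

open MvPolynomial H960VB H938TB Pool.Agent.W615 Pool.Agent.W467.FO Pool.Agent.W467.FX

namespace Pool.Agent.T6.H20.CT

variable {n : ℕ} {E : Bundle2 n} {N : Matrix (Fin (n + 1)) (Fin (n + 1)) ℂ}

/-- **Theorem.**  A bundle of rank two on `P^n`, `n ≥ 6`, with a section `s` such that `(E, s)` has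
an infinitesimal symmetry, and whose zero locus is smooth of codimension two at the points fixed
by this symmetry, splits. -/
theorem symmetric_six (hn : 6 ≤ n) (O : Op E N) (hN : ∀ c : ℂ, N ≠ c • 1) {ds : ℤ}
    {s : Vec E.a n} (hs : Sec E ds s) {μ : ℂ} (hl : O.D s = fun i => C μ * s i)
    (hsm : ∀ x : Fin (n + 1) → ℂ, x ≠ 0 → evv s x = 0 → (∃ c : ℂ, N.mulVec x = c • x) →
      SmoothAt s x) : E.Splits := by
  by_contra hE
  obtain ⟨P, P', wz, a, b, ha, h1, h2, hNP⟩ := lifts_int (by omega) hE ⟨O⟩ hN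
  set lam : Fin (n + 1) → ℂ := fun l => a * wz l + b with hlam
  have h3 : P' * N * P = Matrix.diagonal lam + 0 := by
    have e1 : P' * N * P = a • ((P' * P) * Matrix.diagonal (fun i => (wz i : ℂ)) * (P' * P)) +
        b • (P' * P) := by
      rw [hNP]
      simp only [mul_add, add_mul, Matrix.mul_smul, Matrix.smul_mul, mul_one, mul_assoc]
    rw [e1, h2, one_mul, mul_one, add_zero, ← Matrix.diagonal_one, ← Matrix.diagonal_smul,
      ← Matrix.diagonal_smul, Matrix.diagonal_add]
    congr 1
    funext l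
    simp [hlam]
  have hli : LinearIndependent ℚ ![a] := by
    rw [linearIndependent_unique_iff]
    exact ha
  obtain ⟨φ, hφ1, -⟩ := exists_dual hli 0
  have hφa : φ a = 1 := hφ1
  have hφ : ∀ l, φ (lam l) = wz l + φ b := by
    intro l
    have e1 : lam l = (wz l : ℚ) • a + b := by
      rw [hlam, Rat.smul_def]
      push_cast
      ring
    rw [e1, map_add, map_smul, hφa, smul_eq_mul, mul_one]
  obtain ⟨E', K, w, D, σ, y, hK, hspl, hw, hw2, hb2, hy, hy0, hysm⟩ :=
    descend_s (by omega) O hs hl h1 h3 (by rw [mul_zero, zero_mul]) IsNilpotent.zero φ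
  have hK' : (K : ℚ) ≠ 0 := by exact_mod_cast hK
  have hwe : ∀ l l', (w l).1 = (w l').1 → wz l = wz l' := by
    intro l l' h
    have e1 : ((w l).1 : ℚ) = (w l').1 := by rw [h]
    rw [hw, hw, hφ, hφ] at e1
    have e2 := mul_left_cancel₀ hK' e1
    have e3 : (wz l : ℚ) = wz l' := by linarith
    exact_mod_cast e3
  apply hE
  apply hspl
  refine torus_six hn D hw2 hb2 ?_ hy ?_
  · by_contra hcon
    push Not at hcon
    have e1 : ∀ l, wz l = wz 0 := fun l => hwe _ _ (hcon l 0)
    apply hN (a * wz 0 + b)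
    have e2 : Matrix.diagonal (fun i => (wz i : ℂ)) =
        (wz 0 : ℂ) • (1 : Matrix (Fin (n + 1)) (Fin (n + 1)) ℂ) := by
      rw [← Matrix.diagonal_one, ← Matrix.diagonal_smul]
      congr 1
      funext l
      rw [e1 l]
      simp
    rw [hNP, e2, Matrix.mul_smul, mul_one, Matrix.smul_mul, h1, smul_smul, ← add_smul]
  · intro x v hx hf h0
    have h4 := hy0 x hx h0
    refine hysm x hx h4 (hsm _ ?_ h4 ?_)
    · intro h5
      apply hx
      have h6 := congrArg P'.mulVec h5
      rw [Matrix.mulVecLin_apply, Matrix.mulVec_mulVec, h2, Matrix.one_mulVec,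
        Matrix.mulVec_zero] at h6
      exact h6
    · -- x is an eigenvector of the diagonal matrix
      obtain ⟨l₀, hl₀⟩ : ∃ l, x l ≠ 0 := by
        by_contra hcon
        push Not at hcon
        exact hx (funext hcon)
      refine ⟨lam l₀, ?_⟩
      have h5 : (Matrix.diagonal lam).mulVec x = lam l₀ • x := by
        funext l
        rw [Matrix.mulVec_diagonal, Pi.smul_apply, smul_eq_mul]
        by_cases hxl : x l = 0
        · rw [hxl, mul_zero, mul_zero]
        · have h6 : wz l = wz l₀ := hwe _ _ ((hf l hxl).trans (hf l₀ hl₀).symm)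
          simp only [hlam]
          rw [h6]
      have h6 : N * P = P * Matrix.diagonal lam := by
        rw [add_zero] at h3
        rw [← h3, ← mul_assoc, ← mul_assoc, h1, one_mul]
      rw [Matrix.mulVecLin_apply, Matrix.mulVec_mulVec, h6, ← Matrix.mulVec_mulVec, h5,
        Matrix.mulVec_smul]


/-- the zero scheme is smooth of codimension two at its points -/
theorem smoothAt_of {s : Vec E.a n} {I : Ideal (MvPolynomial (Fin (n + 1)) ℂ)} (hn : 1 ≤ n)
    (Z : ZS E s I) {x : Fin (n + 1) → ℂ} (hx0 : x ≠ 0) (h : evv s x = 0) : SmoothAt s x := by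
  obtain ⟨W⟩ := exists_wedge hn (triv E)
  have hx := Z.mem_cone hx0 h
  obtain ⟨_, _, G, H, hG, hH, hw⟩ := exists_sec_ne W x hx0
  obtain ⟨i, j, hij⟩ := Z.exists_minor W hG.ker hH.ker hx hx0 hw
  obtain ⟨k, l, hkl⟩ := W.P_ne x hx0
  by_contra hc
  apply hij
  have hz : ∀ a b : Fin E.a, jm s x i j a b = 0 := by
    intro a b
    by_contra h0
    exact hc ⟨i, j, a, b, h0⟩
  have hs := Z.sec.ker
  have hs0 : ∀ a, eval x (s a) = 0 := fun a => congrFun h a
  have hf0 : ∀ {K : Vec E.a n}, Ker E K → eval x (W.wd s K) = 0 := fun hK => hx _ (Z.f_mem W hK)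
  have hg : ∀ {K : Vec E.a n}, Ker E K → ∀ m, grad (W.wd s K) x m * eval x (W.P k l) =
      eval x (K l) * grad (s k) x m - eval x (K k) * grad (s l) x m := by
    intro K hK m
    have e1 := congrArg (fun q => eval x (pderiv m q)) (W.eq s K hs hK k l)
    simp only [map_sub, Derivation.leibniz, smul_eq_mul, map_add, map_mul, hs0, hf0 hK,
      zero_mul, zero_add] at e1
    unfold grad
    linear_combination -e1
  have e1 := hg hG.ker
  have e2 := hg hH.ker
  have e3 := hz k l
  unfold jm at e3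
  rw [eval_Lam]
  have key : (grad (W.wd s G) x i * grad (W.wd s H) x j - grad (W.wd s G) x j *
      grad (W.wd s H) x i) * (eval x (W.P k l) * eval x (W.P k l)) = 0 → grad (W.wd s G) x i *
      grad (W.wd s H) x j - grad (W.wd s G) x j * grad (W.wd s H) x i = 0 := fun h =>
    (mul_eq_zero.1 h).resolve_right (mul_ne_zero hkl hkl)
  apply key
  have f1 := e1 i
  have f2 := e1 j
  have f3 := e2 i
  have f4 := e2 j
  unfold grad at f1 f2 f3 f4 ⊢
  linear_combination (eval x (pderiv j (W.wd s H)) * eval x (W.P k l)) * f1 +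
    (eval x (G l) * eval x (pderiv i (s k)) - eval x (G k) * eval x (pderiv i (s l))) * f4 -
    (eval x (pderiv i (W.wd s H)) * eval x (W.P k l)) * f2 -
    (eval x (G l) * eval x (pderiv j (s k)) - eval x (G k) * eval x (pderiv j (s l))) * f3 +
    (eval x (G k) * eval x (H l) - eval x (G l) * eval x (H k)) * e3

/-- **splitting from a tangent vector field.** -/
theorem splits_of_field {s : Vec E.a n} {I : Ideal (MvPolynomial (Fin (n + 1)) ℂ)} (hn : 6 ≤ n)
    (Z : ZS E s I) (hN : ∀ F ∈ I, vf N F ∈ I) (hN' : ∀ c : ℂ, N ≠ c • 1) : E.Splits := by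
  obtain ⟨O, hO⟩ := exists_op Z hN (by omega)
  exact symmetric_six hn O hN' Z.sec hO (fun x hx0 h _ => smoothAt_of (by omega) Z hx0 h)

end Pool.Agent.T6.H20.CT
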