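import Pool.Agent.T6.H20.CT.Ratio
import Pool.Agent.W615.Y1

/-!
Local lifts of a vector field tangent to the zero scheme of a section (helper file).
-/

set_option autoImplicit false
set_option maxHeartbeats 400000

open MvPolynomial H960VB H938TB Pool.Agent.W615 Pool.Agent.W467.FO Pool.Agent.W467.FX

namespace Pool.Agent.T6.H20.CT

variable {n : ℕ} (N : Matrix (Fin (n + 1)) (Fin (n + 1)) ℂ)
variable {E : Bundle2 n} {s : Vec E.a n} {I : Ideal (MvPolynomial (Fin (n + 1)) ℂ)}
variable (Z : ZS E s I) (W : Wedge (triv E))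

/-- `D` is `q` times a lift of the vector field `N` which annihilates the section `s` and for which the
quotient of `E` by `s` has the character `ε`. -/
structure IsQ (s : Vec E.a n) (ε : ℂ) (q : MvPolynomial (Fin (n + 1)) ℂ)
    (D : Vec E.a n → Vec E.a n) : Prop where
  ker : ∀ K, Ker E K → Ker E (D K)
  add : ∀ K L, Ker E K → Ker E L → ∀ i, D (fun j => K j + L j) i = D K i + D L i
  leib : ∀ (p : MvPolynomial (Fin (n + 1)) ℂ) K, Ker E K → ∀ i,
    D (fun j => p * K j) i = q * vf N p * K i + p * D K i
  ds : ∀ i, D s i = 0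
  tr : ∀ K, Ker E K → W.wd s (D K) = q * (vf N (W.wd s K) + C ε * W.wd s K)

variable {N W}

theorem IsQ.zero {ε : ℂ} (hs : Ker E s) : IsQ N W s ε 0 (fun _ _ => 0) where
  ker := fun K _ => ker_zero
  add := fun K L _ _ i => by simp
  leib := fun p K _ i => by simp
  ds := fun i => rfl
  tr := fun K hK => by
    rw [wd_zero_right W hs ker_zero (fun _ => rfl), zero_mul]

theorem IsQ.sum {ε : ℂ} {q q' : MvPolynomial (Fin (n + 1)) ℂ} {D D' : Vec E.a n → Vec E.a n}
    (hs : Ker E s) (h : IsQ N W s ε q D) (h' : IsQ N W s ε q' D') :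
    IsQ N W s ε (q + q') (fun K i => D K i + D' K i) where
  ker := fun K hK => ker_add (h.ker K hK) (h'.ker K hK)
  add := fun K L hK hL i => by
    show D _ i + D' _ i = _
    rw [h.add K L hK hL, h'.add K L hK hL]
    ring
  leib := fun p K hK i => by
    show D _ i + D' _ i = _
    rw [h.leib p K hK, h'.leib p K hK]
    ring
  ds := fun i => by
    show D s i + D' s i = 0
    rw [h.ds, h'.ds, add_zero]
  tr := fun K hK => by
    rw [wd_add_right W (h.ker K hK) (h'.ker K hK) hs, h.tr K hK, h'.tr K hK]
    ring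

theorem IsQ.mul {ε : ℂ} {q : MvPolynomial (Fin (n + 1)) ℂ} {D : Vec E.a n → Vec E.a n}
    (hs : Ker E s) (h : IsQ N W s ε q D) (r : MvPolynomial (Fin (n + 1)) ℂ) :
    IsQ N W s ε (r * q) (fun K i => r * D K i) where
  ker := fun K hK => ker_mul (h.ker K hK) r
  add := fun K L hK hL i => by
    show r * D _ i = _
    rw [h.add K L hK hL]
    ring
  leib := fun p K hK i => by
    show r * D _ i = _
    rw [h.leib p K hK]
    ring
  ds := fun i => by
    show r * D s i = 0
    rw [h.ds, mul_zero]
  tr := fun K hK => by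
    rw [wd_mul_right W (h.ker K hK) hs, h.tr K hK]
    ring

/-- a local lift outside of the zeros of the section -/
theorem local_out (ε : ℂ) (hs : Ker E s) {x : Fin (n + 1) → ℂ} (hx0 : x ≠ 0) (hx : evv s x ≠ 0) :
    ∃ q D, eval x q ≠ 0 ∧ IsQ N W s ε q D := by
  obtain ⟨_, _, G0, H0, hG0, hH0, w0⟩ := exists_sec_ne W x hx0
  obtain ⟨H, hH, hf⟩ : ∃ H, Ker E H ∧ eval x (W.wd s H) ≠ 0 := by
    by_contra hcon
    push Not at hcon
    apply hx
    refine evv_zero_of_wd W hG0.ker hH0.ker hs w0 ?_ ?_
    · rw [W.anti _ _ hG0.ker hs, map_neg, hcon _ hG0.ker, neg_zero]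
    · rw [W.anti _ _ hH0.ker hs, map_neg, hcon _ hH0.ker, neg_zero]
  set f := W.wd s H with hfdef
  have hrel : ∀ K, Ker E K → ∀ i, f * K i = W.wd K H * s i + W.wd s K * H i := by
    intro K hK i
    have h1 := W.three K s H hK hs hH i
    have h2 := W.anti K s hK hs
    linear_combination h1 - (H i) * h2
  refine ⟨f * f, fun K i => (f * vf N (W.wd K H) - W.wd K H * vf N f) * s i +
    (f * (vf N (W.wd s K) + C ε * W.wd s K)) * H i, ?_, ?_⟩
  · rw [map_mul]
    exact mul_ne_zero hf hf
  · refine ⟨fun K hK => ker_add (ker_mul hs _) (ker_mul hH _), fun K L hK hL i => ?_,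
      fun p K hK i => ?_, fun i => ?_, fun K hK => ?_⟩
    · show (f * vf N (W.wd (fun j => K j + L j) H) - W.wd (fun j => K j + L j) H * vf N f) * s i +
        (f * (vf N (W.wd s (fun j => K j + L j)) + C ε * W.wd s (fun j => K j + L j))) * H i = _
      rw [wd_add_left W hK hL hH, wd_add_right W hK hL hs, map_add, map_add]
      ring
    · show (f * vf N (W.wd (fun j => p * K j) H) - W.wd (fun j => p * K j) H * vf N f) * s i +
        (f * (vf N (W.wd s (fun j => p * K j)) + C ε * W.wd s (fun j => p * K j))) * H i = _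
      rw [W.smul p K H hK hH, wd_mul_right W hK hs, Derivation.leibniz, Derivation.leibniz]
      simp only [smul_eq_mul]
      linear_combination -(f * vf N p) * hrel K hK i
    · show (f * vf N (W.wd s H) - W.wd s H * vf N f) * s i +
        (f * (vf N (W.wd s s) + C ε * W.wd s s)) * H i = 0
      rw [wd_self W hs, map_zero, ← hfdef]
      ring
    · rw [wd_add_right W (ker_mul hs _) (ker_mul hH _) hs, wd_mul_right W hs hs,
        wd_mul_right W hH hs, wd_self W hs, ← hfdef]
      ring

variable (hN : ∀ F ∈ I, vf N F ∈ I)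

include Z hN in
/-- a local lift at a zero of the section -/
theorem local_in {θ : ℂ} (hθ : ∀ x ∈ cone I, x ≠ 0 → ∀ (a b : ℤ) (G H : Vec E.a n), Sec E a G →
    Sec E b H → ∀ i j, eval x (W.wd G H) * eval x (Th N (W.wd s G) (W.wd s H) i j) -
      eval x (vf N (W.wd G H)) * eval x (Lam (W.wd s G) (W.wd s H) i j) =
      θ * (eval x (W.wd G H) * eval x (Lam (W.wd s G) (W.wd s H) i j)))
    {x : Fin (n + 1) → ℂ} (hx0 : x ≠ 0) (hx : x ∈ cone I) :
    ∃ q D, eval x q ≠ 0 ∧ IsQ N W s (-θ) q D := by
  have hs := Z.sec.ker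
  obtain ⟨a, b, G, H, hG, hH, hw⟩ := exists_sec_ne W x hx0
  set f := W.wd s G with hf
  set h := W.wd s H with hh
  set w := W.wd G H with hwdef
  have hwI : w ∉ I := fun h0 => hw (hx _ h0)
  -- the local matrix of the vector field on the conormal module
  obtain ⟨p₁, a₁, b₁, hp₁, e₁⟩ := Z.locgen W hG.ker hH.ker hx0 hw (hN _ (Z.f_mem W hH.ker))
  obtain ⟨p₂, a₂, b₂, hp₂, e₂⟩ := Z.locgen W hG.ker hH.ker hx0 hw (hN _ (Z.f_mem W hG.ker))
  rw [← hf, ← hh] at e₁ e₂
  -- `p₁ N h = a₁ f + b₁ h`, `p₂ N f = a₂ f + b₂ h`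
  set p := p₁ * p₂ with hp
  -- the trace
  set R := w * (p₂ * b₁ + p₁ * a₂) - p * (vf N w + C θ * w) with hR
  have hRI : R ∈ I := by
    have h1 : w * R ∈ I := by
      apply Z.mem_of_vanish
      intro y hy hy0
      rw [map_mul]
      by_cases hwy : eval y w = 0
      · rw [hwy, zero_mul]
      · obtain ⟨i, j, hij⟩ := Z.exists_minor W hG.ker hH.ker hy hy0 hwy
        rw [← hf, ← hh] at hij
        have t1 := hθ y hy hy0 a b G H hG hH i j
        rw [← hf, ← hh, ← hwdef] at t1
        have z1 : eval y f = 0 := hy _ (Z.f_mem W hG.ker)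
        have z2 : eval y h = 0 := hy _ (Z.f_mem W hH.ker)
        have z3 : eval y (vf N f) = 0 := hy _ (hN _ (Z.f_mem W hG.ker))
        have z4 : eval y (vf N h) = 0 := hy _ (hN _ (Z.f_mem W hH.ker))
        have g1 : ∀ k, eval y p₁ * grad (vf N h) y k =
            eval y a₁ * grad f y k + eval y b₁ * grad h y k := by
          intro k
          have := congrArg (fun q => grad q y k) e₁
          simp only [grad_add] at this
          rw [grad_mul_of_zero z4, grad_mul_of_zero z1, grad_mul_of_zero z2] at this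
          exact this
        have g2 : ∀ k, eval y p₂ * grad (vf N f) y k =
            eval y a₂ * grad f y k + eval y b₂ * grad h y k := by
          intro k
          have := congrArg (fun q => grad q y k) e₂
          simp only [grad_add] at this
          rw [grad_mul_of_zero z3, grad_mul_of_zero z1, grad_mul_of_zero z2] at this
          exact this
        have t2 : eval y p * eval y (Th N f h i j) =
            (eval y p₁ * eval y a₂ + eval y p₂ * eval y b₁) * eval y (Lam f h i j) := by
          unfold Th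
          rw [hp, map_mul, map_add, eval_Lam, eval_Lam, eval_Lam]
          have i1 := g1 i
          have i2 := g1 j
          have i3 := g2 i
          have i4 := g2 j
          linear_combination (eval y p₁ * grad h y j) * i3 - (eval y p₁ * grad h y i) * i4 +
            (eval y p₂ * grad f y i) * i2 - (eval y p₂ * grad f y j) * i1
        have t3 : eval y R * eval y (Lam f h i j) = 0 := by
          rw [hR]
          simp only [map_sub, map_mul, map_add, eval_C]
          rw [hp, map_mul] at t2
          have hpy : eval y p = eval y p₁ * eval y p₂ := by rw [hp, map_mul]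
          rw [hpy]
          linear_combination (eval y p₁ * eval y p₂) * t1 - (eval y w) * t2
        rw [(mul_eq_zero.1 t3).resolve_right hij, mul_zero]
    exact (Z.prime.mem_or_mem h1).resolve_left hwI
  obtain ⟨p₃, u, v, hp₃, e₃⟩ := Z.locgen W hG.ker hH.ker hx0 hw hRI
  rw [← hf, ← hh] at e₃
  -- `p₃ R = u f + v h`
  set q' := p * p₃ with hq'
  set A := p₃ * w * p₂ * b₁ - u * f with hA
  set B := p₃ * w * p₂ * a₁ + u * h with hB
  set C' := p₃ * w * p₁ * b₂ + v * f with hC'
  set Dd := p₃ * w * p₁ * a₂ - v * h with hDd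
  have r1 : w * q' * vf N h = A * h + B * f := by
    rw [hA, hB, hq', hp]
    linear_combination (w * p₂ * p₃) * e₁
  have r2 : w * q' * vf N f = C' * h + Dd * f := by
    rw [hC', hDd, hq', hp]
    linear_combination (w * p₁ * p₃) * e₂
  have r3 : A + Dd = q' * (vf N w + C θ * w) := by
    rw [hA, hDd, hq']
    rw [hR] at e₃
    linear_combination e₃
  have hrel : ∀ K, Ker E K → ∀ i, w * K i = W.wd K H * G i + W.wd G K * H i := by
    intro K hK i
    have h1 := W.three K G H hK hG.ker hH.ker i
    have h2 := W.anti K G hK hG.ker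
    linear_combination h1 - (H i) * h2
  have hrelf : ∀ K, Ker E K → w * W.wd s K = W.wd K H * f + W.wd G K * h := by
    intro K hK
    have h1 := W.four s K G H hs hK hG.ker hH.ker
    have h2 := W.anti K G hK hG.ker
    have h3 := W.anti K H hK hH.ker
    rw [← hf, ← hh, ← hwdef] at h1
    linear_combination h1 - h * h2
  refine ⟨w * w * q', fun K i => (w * q' * vf N (W.wd K H) - A * W.wd K H + B * W.wd G K) * G i +
    (w * q' * vf N (W.wd G K) + C' * W.wd K H - Dd * W.wd G K) * H i, ?_, ?_⟩
  · rw [hq', hp]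
    simp only [map_mul]
    exact mul_ne_zero (mul_ne_zero hw hw) (mul_ne_zero (mul_ne_zero hp₁ hp₂) hp₃)
  · refine ⟨fun K hK => ker_add (ker_mul hG.ker _) (ker_mul hH.ker _), fun K L hK hL i => ?_,
      fun r K hK i => ?_, fun i => ?_, fun K hK => ?_⟩
    · show (w * q' * vf N (W.wd (fun j => K j + L j) H) - A * W.wd (fun j => K j + L j) H +
          B * W.wd G (fun j => K j + L j)) * G i +
        (w * q' * vf N (W.wd G (fun j => K j + L j)) + C' * W.wd (fun j => K j + L j) H -
          Dd * W.wd G (fun j => K j + L j)) * H i = _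
      rw [wd_add_left W hK hL hH.ker, wd_add_right W hK hL hG.ker, map_add, map_add]
      ring
    · show (w * q' * vf N (W.wd (fun j => r * K j) H) - A * W.wd (fun j => r * K j) H +
          B * W.wd G (fun j => r * K j)) * G i +
        (w * q' * vf N (W.wd G (fun j => r * K j)) + C' * W.wd (fun j => r * K j) H -
          Dd * W.wd G (fun j => r * K j)) * H i = _
      rw [W.smul r K H hK hH.ker, wd_mul_right W hK hG.ker, Derivation.leibniz, Derivation.leibniz]
      simp only [smul_eq_mul]
      linear_combination -(w * q' * vf N r) * hrel K hK i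
    · show (w * q' * vf N (W.wd s H) - A * W.wd s H + B * W.wd G s) * G i +
        (w * q' * vf N (W.wd G s) + C' * W.wd s H - Dd * W.wd G s) * H i = 0
      rw [W.anti G s hG.ker hs, ← hf, ← hh, map_neg]
      linear_combination (G i) * r1 - (H i) * r2
    · rw [wd_add_right W (ker_mul hG.ker _) (ker_mul hH.ker _) hs, wd_mul_right W hG.ker hs,
        wd_mul_right W hH.ker hs, ← hf, ← hh]
      have h1 := hrelf K hK
      have h2 := congrArg (vf N) h1
      rw [map_add, Derivation.leibniz, Derivation.leibniz, Derivation.leibniz] at h2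
      simp only [smul_eq_mul] at h2
      rw [C_neg]
      linear_combination -(w * q') * h2 - (W.wd K H) * r2 - (W.wd G K) * r1 +
        (A + Dd) * h1 - (w * W.wd s K) * r3

end Pool.Agent.T6.H20.CT
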