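import Pool.Agent.T6.H20.CT.Local

/-!
Patching of the local lifts of a vector field tangent to the zero scheme of a section (helper file).
-/

set_option autoImplicit false
set_option maxHeartbeats 400000

open MvPolynomial H960VB H938TB Pool.Agent.W615 Pool.Agent.W467.FO Pool.Agent.W467.FX

namespace Pool.Agent.T6.H20.CT

/-- cancellation of a family without common prime divisor -/
theorem dvd_of_family {R : Type*} [CommRing R] [IsDomain R] [UniqueFactorizationMonoid R]
    {ι : Type*} (F : ι → R) (hF : ∀ π : R, Prime π → ∃ k, ¬ π ∣ F k) (g : R) :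
    g ≠ 0 → ∀ c : R, (∀ k, g ∣ c * F k) → g ∣ c := by
  induction g using UniqueFactorizationMonoid.induction_on_prime with
  | h₁ => intro h; exact absurd rfl h
  | h₂ u hu => intro _ c _; exact hu.dvd
  | h₃ a p ha hp ih =>
    intro _ c hc
    obtain ⟨k, hk⟩ := hF p hp
    have h1 : p ∣ c := (hp.dvd_or_dvd (dvd_trans (dvd_mul_right p a) (hc k))).resolve_right hk
    obtain ⟨c', rfl⟩ := h1
    refine mul_dvd_mul_left p (ih ha c' fun l => ?_)
    have h2 := hc l
    rw [mul_assoc] at h2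
    exact (mul_dvd_mul_iff_left hp.ne_zero).1 h2

/-- a prime polynomial has a nontrivial zero -/
theorem exists_zero_of_prime {n : ℕ} (hn : 1 ≤ n) {π : MvPolynomial (Fin (n + 1)) ℂ}
    (h : Prime π) : ∃ x : Fin (n + 1) → ℂ, x ≠ 0 ∧ eval x π = 0 := by
  by_contra hc
  push Not at hc
  obtain ⟨c, hc0, rfl⟩ := const_of_no_zero (by omega) hc
  exact h.not_isUnit ((isUnit_iff_ne_zero.2 hc0).map C)

variable {n : ℕ} {N : Matrix (Fin (n + 1)) (Fin (n + 1)) ℂ}
variable {E : Bundle2 n} {s : Vec E.a n} {I : Ideal (MvPolynomial (Fin (n + 1)) ℂ)}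
variable (Z : ZS E s I) (W : Wedge (triv E))

include Z W in
theorem family_prime (hn : 1 ≤ n) (π : MvPolynomial (Fin (n + 1)) ℂ) (hπ : Prime π) :
    ∃ K : {K : Vec E.a n // Ker E K}, ¬ π ∣ W.wd s K.1 := by
  by_contra hc
  push Not at hc
  obtain ⟨x, hx0, hx⟩ := exists_zero_of_prime hn hπ
  obtain ⟨_, _, G, H, hG, hH, hw⟩ := exists_sec_ne W x hx0
  obtain ⟨g, hg⟩ := hc ⟨G, hG.ker⟩
  obtain ⟨h, hh⟩ := hc ⟨H, hH.ker⟩
  simp only at hg hh
  have hs := Z.sec.ker
  have h0 : evv s x = 0 := by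
    refine evv_zero_of_wd W hG.ker hH.ker hs hw ?_ ?_
    · rw [W.anti _ _ hG.ker hs, hg, map_neg, map_mul, hx, zero_mul, neg_zero]
    · rw [W.anti _ _ hH.ker hs, hh, map_neg, map_mul, hx, zero_mul, neg_zero]
  obtain ⟨i, j, hij⟩ := Z.exists_minor W hG.ker hH.ker (Z.mem_cone hx0 h0) hx0 hw
  apply hij
  rw [hg, hh, eval_Lam]
  unfold grad
  simp only [Derivation.leibniz, smul_eq_mul, map_add, map_mul, hx]
  ring

include Z W in
theorem s_prime (hn : 1 ≤ n) : Prm s := by
  intro p hp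
  by_contra hu
  have hs := Z.sec.ker
  by_cases hp0 : p = 0
  · have hs0 : ∀ i, s i = 0 := fun i => by
      obtain ⟨q, hq⟩ := hp i
      rw [hq, hp0, zero_mul]
    have hX : Prime (X 0 : MvPolynomial (Fin (n + 1)) ℂ) := MvPolynomial.X_prime
    obtain ⟨K, hK⟩ := family_prime Z W hn _ hX
    apply hK
    rw [W.anti _ _ hs K.2, wd_zero_right W K.2 hs hs0, neg_zero]
    exact dvd_zero _
  · obtain ⟨π, hπ, hπp⟩ := WfDvdMonoid.exists_irreducible_factor hu hp0
    have hπ' := UniqueFactorizationMonoid.irreducible_iff_prime.1 hπ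
    obtain ⟨x, hx0, hx⟩ := exists_zero_of_prime hn hπ'
    obtain ⟨i, j, hij⟩ := W.P_ne x hx0
    obtain ⟨K, hK⟩ := family_prime Z W hn _ hπ'
    apply hK
    have h1 : π ∣ W.wd s K.1 * W.P i j := by
      rw [← W.eq s K.1 hs K.2 i j]
      exact dvd_sub (dvd_mul_of_dvd_left (hπp.trans (hp i)) _)
        (dvd_mul_of_dvd_left (hπp.trans (hp j)) _)
    refine (hπ'.dvd_or_dvd h1).resolve_right ?_
    rintro ⟨q, hq⟩
    apply hij
    rw [hq, map_mul, hx, zero_mul]

variable {W}

theorem IsQ.congr {ε : ℂ} {q q' : MvPolynomial (Fin (n + 1)) ℂ} {D : Vec E.a n → Vec E.a n}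
    (h : IsQ N W s ε q D) (hq : q = q') : IsQ N W s ε q' D := hq ▸ h

include Z in
/-- the difference of two lifts -/
theorem diff_eq (hn : 1 ≤ n) {ε : ℂ} {q : MvPolynomial (Fin (n + 1)) ℂ}
    {D D' : Vec E.a n → Vec E.a n} (h : IsQ N W s ε q D) (h' : IsQ N W s ε q D') :
    ∃ t : MvPolynomial (Fin (n + 1)) ℂ, ∀ K, Ker E K → ∀ i, D K i - D' K i = t * W.wd s K * s i := by
  have hs := Z.sec.ker
  have hprm := s_prime Z W hn
  have hfam := family_prime Z W hn
  obtain ⟨i0, hi0⟩ := hprm.ne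
  have h1 : ∀ K, Ker E K → ∃ c : MvPolynomial (Fin (n + 1)) ℂ, ∀ i, D K i - D' K i = c * s i := by
    intro K hK
    have e1 := ker_sub (h.ker K hK) (h'.ker K hK)
    refine hprm.dvd_wd W hs e1 ?_
    have e2 := h.tr K hK
    have e3 := h'.tr K hK
    have e4 : W.wd s (fun i => D K i - D' K i) = W.wd s (D K) - W.wd s (D' K) := by
      apply wd_eq_of W hs e1
      intro i j
      have f1 := W.eq s (D K) hs (h.ker K hK) i j
      have f2 := W.eq s (D' K) hs (h'.ker K hK) i j
      linear_combination f1 - f2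
    rw [e4, e2, e3, sub_self]
  choose c hc using h1
  -- `f_K c_L = f_L c_K`
  have h2 : ∀ K (hK : Ker E K) L (hL : Ker E L), W.wd s K * c L hL = W.wd s L * c K hK := by
    intro K hK L hL
    apply mul_right_cancel₀ hi0
    have e1 := W.three s K L hs hK hL
    -- the relation between K, L and s
    have e2 : (fun i => W.wd s K * L i) = fun i => W.wd s L * K i + (- W.wd K L) * s i := by
      funext i
      linear_combination e1 i
    have e3 : ∀ D'' : Vec E.a n → Vec E.a n, IsQ N W s ε q D'' →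
        q * vf N (W.wd s K) * L i0 + W.wd s K * D'' L i0 =
        q * vf N (W.wd s L) * K i0 + W.wd s L * D'' K i0 +
          (q * vf N (- W.wd K L) * s i0 + (- W.wd K L) * D'' s i0) := by
      intro D'' hD
      have f1 := hD.leib (W.wd s K) L hL i0
      have f2 := hD.add (fun i => W.wd s L * K i) (fun i => (- W.wd K L) * s i) (ker_mul hK _)
        (ker_mul hs _) i0
      rw [hD.leib _ K hK i0, hD.leib _ s hs i0] at f2
      rw [← f1, ← f2, e2]
    have e4 := e3 D h
    have e5 := e3 D' h'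
    rw [h.ds] at e4
    rw [h'.ds] at e5
    have e6 := hc K hK i0
    have e7 := hc L hL i0
    linear_combination e4 - e5 - (W.wd s K) * e7 + (W.wd s L) * e6
  obtain ⟨K0, hK0⟩ := hfam (X 0) (MvPolynomial.X_prime)
  have hf0 : W.wd s K0.1 ≠ 0 := fun h0 => hK0 (h0 ▸ dvd_zero _)
  have h3 : W.wd s K0.1 ∣ c K0.1 K0.2 := by
    refine dvd_of_family (fun K : {K : Vec E.a n // Ker E K} => W.wd s K.1) hfam _ hf0 _ ?_
    intro L
    refine ⟨c L.1 L.2, ?_⟩
    have := h2 K0.1 K0.2 L.1 L.2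
    linear_combination -this
  obtain ⟨t, ht⟩ := h3
  refine ⟨t, fun K hK i => ?_⟩
  rw [hc K hK i]
  congr 1
  apply mul_left_cancel₀ hf0
  have := h2 K0.1 K0.2 K hK
  rw [ht] at this
  linear_combination this

theorem IsQ.subt {ε : ℂ} {q : MvPolynomial (Fin (n + 1)) ℂ} {D : Vec E.a n → Vec E.a n}
    (hs : Ker E s) (h : IsQ N W s ε q D) (t : MvPolynomial (Fin (n + 1)) ℂ) :
    IsQ N W s ε q (fun K i => D K i + t * W.wd s K * s i) where
  ker := fun K hK => ker_add (h.ker K hK) (ker_mul hs _)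
  add := fun K L hK hL i => by
    show D _ i + _ = D K i + t * W.wd s K * s i + (D L i + t * W.wd s L * s i)
    rw [h.add K L hK hL, wd_add_right W hK hL hs]
    ring
  leib := fun p K hK i => by
    show D _ i + _ = q * vf N p * K i + p * (D K i + t * W.wd s K * s i)
    rw [h.leib p K hK, wd_mul_right W hK hs]
    ring
  ds := fun i => by
    show D s i + _ = 0
    rw [h.ds, wd_self W hs]
    ring
  tr := fun K hK => by
    rw [wd_add_right W (h.ker K hK) (ker_mul hs _) hs, wd_mul_right W hs hs, wd_self W hs,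
      h.tr K hK]
    ring

/-- division of a lift -/
theorem IsQ.div {ε : ℂ} {q r : MvPolynomial (Fin (n + 1)) ℂ} {D : Vec E.a n → Vec E.a n}
    (hs : Ker E s) (hr : r ≠ 0) (h : IsQ N W s ε (r * q) D)
    (hd : ∀ K, Ker E K → ∀ i, r ∣ D K i) : ∃ D', IsQ N W s ε q D' := by
  classical
  have h1 : ∀ K, ∃ L : Vec E.a n, Ker E K → ∀ i, D K i = r * L i := by
    intro K
    by_cases hK : Ker E K
    · choose L hL using hd K hK
      exact ⟨L, fun _ => hL⟩
    · exact ⟨fun _ => 0, fun h => absurd h hK⟩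
  choose D' hD' using h1
  have hk : ∀ K, Ker E K → Ker E (D' K) := by
    intro K hK
    apply ker_of_mul hr
    have e1 : (fun i => r * D' K i) = D K := by
      funext i
      rw [hD' K hK i]
    rw [e1]
    exact h.ker K hK
  refine ⟨D', ⟨hk, fun K L hK hL i => ?_, fun p K hK i => ?_, fun i => ?_, fun K hK => ?_⟩⟩
  · apply mul_left_cancel₀ hr
    rw [← hD' _ (ker_add hK hL), h.add K L hK hL, hD' K hK, hD' L hL]
    ring
  · apply mul_left_cancel₀ hr
    rw [← hD' _ (ker_mul hK p), h.leib p K hK, hD' K hK]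
    ring
  · apply mul_left_cancel₀ hr
    rw [← hD' s hs, h.ds, mul_zero]
  · apply mul_left_cancel₀ hr
    rw [← wd_mul_right W (hk K hK) hs]
    have e1 : (fun i => r * D' K i) = D K := by
      funext i
      rw [hD' K hK i]
    rw [e1, h.tr K hK]
    ring

end Pool.Agent.T6.H20.CT
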