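import Pool.Agent.T6.H20.CT.Const
import Pool.Agent.W615.X3

/-!
The trace of a vector field on the conormal bundle of the zero scheme of a section, compared with
the determinant of the bundle, is constant (helper file).
-/

set_option autoImplicit false
set_option maxHeartbeats 400000

open MvPolynomial H960VB H938TB Pool.Agent.W615 Pool.Agent.W467.FO Pool.Agent.W467.FX

namespace Pool.Agent.T6.H20.CT

variable {n : ℕ} (N : Matrix (Fin (n + 1)) (Fin (n + 1)) ℂ)

theorem pderiv_comm2 (i j : Fin (n + 1)) (p : MvPolynomial (Fin (n + 1)) ℂ) :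
    pderiv i (pderiv j p) = pderiv j (pderiv i p) := by
  ext d
  rw [coeff_pderiv, coeff_pderiv, coeff_pderiv, coeff_pderiv]
  rw [add_right_comm]
  simp only [Finsupp.add_apply, Finsupp.single_apply]
  by_cases h : i = j
  · subst h; ring
  · rw [if_neg h, if_neg (Ne.symm h)]
    push_cast
    ring

theorem pderiv_vf (i : Fin (n + 1)) (F : MvPolynomial (Fin (n + 1)) ℂ) :
    pderiv i (vf N F) = vf N (pderiv i F) + ∑ k, C (N k i) * pderiv k F := by
  rw [vf_eq_sum, vf_eq_sum, map_sum, ← Finset.sum_add_distrib]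
  refine Finset.sum_congr rfl fun k _ => ?_
  rw [Derivation.leibniz, smul_eq_mul, smul_eq_mul]
  have h1 : pderiv i (∑ t, C (N k t) * X t : MvPolynomial (Fin (n + 1)) ℂ) = C (N k i) := by
    rw [map_sum, Finset.sum_eq_single i]
    · rw [Derivation.leibniz, pderiv_X_self, pderiv_C, smul_eq_mul, smul_eq_mul, mul_one, mul_zero,
        add_zero]
    · intro t _ ht
      rw [Derivation.leibniz, pderiv_X_of_ne ht, pderiv_C, smul_eq_mul, smul_eq_mul,
        mul_zero, mul_zero, add_zero]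
    · intro h
      exact absurd (Finset.mem_univ _) h
  have h2 : pderiv i (pderiv k F) = pderiv k (pderiv i F) := by
    exact pderiv_comm2 i k F
  rw [h1, h2]
  ring

/-- the derivative of `dF ∧ dG` -/
noncomputable def Th (F G : MvPolynomial (Fin (n + 1)) ℂ) (i j : Fin (n + 1)) :
    MvPolynomial (Fin (n + 1)) ℂ := Lam (vf N F) G i j + Lam F (vf N G) i j

/-- the formula for the Lie derivative -/
theorem Th_eq (F G : MvPolynomial (Fin (n + 1)) ℂ) (i j : Fin (n + 1)) :
    Th N F G i j = vf N (Lam F G i j) + ∑ k, C (N k i) * Lam F G k j +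
      ∑ k, C (N k j) * Lam F G i k := by
  have e1 : ∑ k, C (N k i) * Lam F G k j = (∑ k, C (N k i) * pderiv k F) * pderiv j G -
      pderiv j F * ∑ k, C (N k i) * pderiv k G := by
    rw [Finset.sum_mul, Finset.mul_sum, ← Finset.sum_sub_distrib]
    refine Finset.sum_congr rfl fun k _ => ?_
    unfold Lam
    ring
  have e2 : ∑ k, C (N k j) * Lam F G i k = pderiv i F * (∑ k, C (N k j) * pderiv k G) -
      (∑ k, C (N k j) * pderiv k F) * pderiv i G := by
    rw [Finset.sum_mul, Finset.mul_sum, ← Finset.sum_sub_distrib]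
    refine Finset.sum_congr rfl fun k _ => ?_
    unfold Lam
    ring
  rw [e1, e2]
  unfold Th Lam
  rw [pderiv_vf, pderiv_vf, pderiv_vf, pderiv_vf, map_sub, Derivation.leibniz, Derivation.leibniz]
  simp only [smul_eq_mul]
  ring

theorem homZ_Th {F G : MvPolynomial (Fin (n + 1)) ℂ} {d e : ℤ} (hF : HomZ F d) (hG : HomZ G e)
    (i j : Fin (n + 1)) : HomZ (Th N F G i j) (d - 1 + (e - 1)) :=
  homZ_add (homZ_Lam (vf_homZ N hF) hG i j) (homZ_Lam hF (vf_homZ N hG) i j)

variable {E : Bundle2 n} {s : Vec E.a n} {I : Ideal (MvPolynomial (Fin (n + 1)) ℂ)}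
variable (Z : ZS E s I) (W : Wedge (triv E))

/-- the numerator -/
noncomputable def nu (s G H : Vec E.a n) (i j : Fin (n + 1)) : MvPolynomial (Fin (n + 1)) ℂ :=
  W.wd G H * Th N (W.wd s G) (W.wd s H) i j - vf N (W.wd G H) * Lam (W.wd s G) (W.wd s H) i j

/-- the denominator -/
noncomputable def de (s G H : Vec E.a n) (i j : Fin (n + 1)) : MvPolynomial (Fin (n + 1)) ℂ :=
  W.wd G H * Lam (W.wd s G) (W.wd s H) i j

variable (hN : ∀ F ∈ I, vf N F ∈ I)

include Z hN in
theorem cross2 {G H G' H' : Vec E.a n} (hG : Ker E G) (hH : Ker E H) (hG' : Ker E G')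
    (hH' : Ker E H') {x : Fin (n + 1) → ℂ} (hx : x ∈ cone I) (i j : Fin (n + 1)) :
    eval x (Th N (W.wd s G') (W.wd s H') i j) * eval x (W.wd G H) +
      eval x (Lam (W.wd s G') (W.wd s H') i j) * eval x (vf N (W.wd G H)) =
    eval x (Th N (W.wd s G) (W.wd s H) i j) * eval x (W.wd G' H') +
      eval x (Lam (W.wd s G) (W.wd s H) i j) * eval x (vf N (W.wd G' H')) := by
  have hmem : ∀ k l, Lam (W.wd s G') (W.wd s H') k l * W.wd G H -
      Lam (W.wd s G) (W.wd s H) k l * W.wd G' H' ∈ I := by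
    intro k l
    apply Z.mem_of_vanish
    intro y hy _
    have h1 := Z.cross W hG hH hG' hH' hy k l
    rw [map_sub, map_mul, map_mul, h1, sub_self]
  have h2 := hx _ (hN _ (hmem i j))
  rw [map_sub, Derivation.leibniz, Derivation.leibniz, smul_eq_mul, smul_eq_mul, smul_eq_mul,
    smul_eq_mul, map_sub, map_add, map_add, map_mul, map_mul, map_mul, map_mul] at h2
  have h3 : ∀ k l, eval x (Lam (W.wd s G') (W.wd s H') k l) * eval x (W.wd G H) =
      eval x (Lam (W.wd s G) (W.wd s H) k l) * eval x (W.wd G' H') := fun k l =>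
    Z.cross W hG hH hG' hH' hx k l
  rw [Th_eq, Th_eq]
  simp only [map_add, map_sum, map_mul, eval_C]
  have h4 : (∑ k, N k i * eval x (Lam (W.wd s G') (W.wd s H') k j)) * eval x (W.wd G H) =
      (∑ k, N k i * eval x (Lam (W.wd s G) (W.wd s H) k j)) * eval x (W.wd G' H') := by
    rw [Finset.sum_mul, Finset.sum_mul]
    refine Finset.sum_congr rfl fun k _ => ?_
    rw [mul_assoc, h3, mul_assoc]
  have h5 : (∑ k, N k j * eval x (Lam (W.wd s G') (W.wd s H') i k)) * eval x (W.wd G H) =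
      (∑ k, N k j * eval x (Lam (W.wd s G) (W.wd s H) i k)) * eval x (W.wd G' H') := by
    rw [Finset.sum_mul, Finset.sum_mul]
    refine Finset.sum_congr rfl fun k _ => ?_
    rw [mul_assoc, h3, mul_assoc]
  linear_combination h2 + h4 + h5

include Z hN in
/-- the ratio at a point -/
theorem exists_e {x : Fin (n + 1) → ℂ} (hx : x ∈ cone I) (hx0 : x ≠ 0) :
    ∃ e : ℂ, ∀ G H : Vec E.a n, Ker E G → Ker E H →
      ∀ i j, eval x (nu N W s G H i j) = e * eval x (de W s G H i j) := by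
  obtain ⟨_, _, G0, H0, hG0, hH0, w0⟩ := exists_sec_ne W x hx0
  obtain ⟨a, b, hab⟩ := Z.grad_gen W hG0.ker hH0.ker hx hx0 w0 (hN _ (Z.f_mem W hG0.ker))
  obtain ⟨a', b', hab'⟩ := Z.grad_gen W hG0.ker hH0.ker hx hx0 w0 (hN _ (Z.f_mem W hH0.ker))
  have hθ : ∀ i j, eval x (Th N (W.wd s G0) (W.wd s H0) i j) =
      (a + b') * eval x (Lam (W.wd s G0) (W.wd s H0) i j) := by
    intro i j
    unfold Th
    rw [map_add, eval_Lam, eval_Lam, eval_Lam, hab, hab, hab', hab']
    ring
  refine ⟨(a + b') - eval x (vf N (W.wd G0 H0)) / eval x (W.wd G0 H0), fun G H hG hH i j => ?_⟩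
  have c1 := cross2 N Z W hN hG0.ker hH0.ker hG hH hx i j
  have c2 := Z.cross W hG0.ker hH0.ker hG hH hx i j
  have c3 := hθ i j
  unfold nu de
  rw [map_sub, map_mul, map_mul, map_mul]
  set w := eval x (W.wd G H)
  set v := eval x (W.wd G0 H0)
  set Nw := eval x (vf N (W.wd G H))
  set Nv := eval x (vf N (W.wd G0 H0))
  set L := eval x (Lam (W.wd s G) (W.wd s H) i j)
  set L0 := eval x (Lam (W.wd s G0) (W.wd s H0) i j)
  set T := eval x (Th N (W.wd s G) (W.wd s H) i j)
  set T0 := eval x (Th N (W.wd s G0) (W.wd s H0) i j)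
  rw [c3] at c1
  have hv : v ≠ 0 := w0
  have key : (v * v) * (w * T - Nw * L) = (v * v) * (((a + b') - Nv / v) * (w * L)) := by
    have h1 : (v * v) * (((a + b') - Nv / v) * (w * L)) =
        ((a + b') * v - Nv) * (w * (L * v)) := by
      field_simp
    rw [h1]
    linear_combination (w * v) * c1 - (Nw * v + w * ((a + b') * v - Nv) + w * Nv) * c2
  exact mul_left_cancel₀ (mul_ne_zero hv hv) key

include Z hN in
/-- **the constant** -/
theorem exists_theta : ∃ θ : ℂ, ∀ x ∈ cone I, x ≠ 0 → ∀ (a b : ℤ) (G H : Vec E.a n), Sec E a G →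
    Sec E b H → ∀ i j, eval x (W.wd G H) * eval x (Th N (W.wd s G) (W.wd s H) i j) -
      eval x (vf N (W.wd G H)) * eval x (Lam (W.wd s G) (W.wd s H) i j) =
      θ * (eval x (W.wd G H) * eval x (Lam (W.wd s G) (W.wd s H) i j)) := by
  let PP : Set (MvPolynomial (Fin (n + 1)) ℂ × MvPolynomial (Fin (n + 1)) ℂ) :=
    {p | ∃ (a b : ℤ) (G H : Vec E.a n) (i j : Fin (n + 1)), Sec E a G ∧ Sec E b H ∧
      p = (nu N W s G H i j, de W s G H i j)}
  obtain ⟨θ, hθ⟩ := const_ratio Z PP (by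
    rintro _ ⟨a, b, G, H, i, j, hG, hH, rfl⟩
    have h1 := wd_homZ W hG hH
    have h2 := homZ_Lam (wd_homZ W Z.sec hG) (wd_homZ W Z.sec hH) i j
    have h3 := homZ_Th N (wd_homZ W Z.sec hG) (wd_homZ W Z.sec hH) i j
    exact ⟨_, homZ_sub (W615.homZ_mul h1 h3) (W615.homZ_mul (vf_homZ N h1) h2), W615.homZ_mul h1 h2⟩) (by
    intro x hx hx0
    obtain ⟨e, he⟩ := exists_e N Z W hN hx hx0
    refine ⟨e, ?_⟩
    rintro _ ⟨a, b, G, H, i, j, hG, hH, rfl⟩
    exact he G H hG.ker hH.ker i j) (by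
    intro x hx hx0
    obtain ⟨a, b, G, H, hG, hH, w0⟩ := exists_sec_ne W x hx0
    obtain ⟨i, j, hij⟩ := Z.exists_minor W hG.ker hH.ker hx hx0 w0
    refine ⟨_, ⟨a, b, G, H, i, j, hG, hH, rfl⟩, ?_⟩
    show eval x (de W s G H i j) ≠ 0
    unfold de
    rw [map_mul]
    exact mul_ne_zero w0 hij)
  refine ⟨θ, fun x hx hx0 a b G H hG hH i j => ?_⟩
  have h1 := hθ x hx hx0 _ ⟨a, b, G, H, i, j, hG, hH, rfl⟩
  have h2 : eval x (nu N W s G H i j) = θ * eval x (de W s G H i j) := h1
  unfold nu de at h2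
  rw [map_sub, map_mul, map_mul, map_mul] at h2
  exact h2

end Pool.Agent.T6.H20.CT
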