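import Pool.Agent.W615.Y11

/-!
Smooth zero loci of codimension two with a one-dimensional torus of symmetries in `P^n`, `n ≥ 6`
(helper file).
-/

set_option autoImplicit false
set_option maxHeartbeats 800000

open MvPolynomial H960VB H938TB

namespace Pool.Agent.T6.H20.CT

open Pool.Agent.W615

variable {n : ℕ} {w : Fin (n + 1) → ℤ × ℤ} {E : Bundle2 n} {D : EqB E w}
variable {W : Wedge D} {σ : M} {s : Vec E.a n} {a b : ℤ}

/-- a zero on the fixed points of an extreme weight, from a line of this weight and a middle point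
outside -/
theorem exists_zero (H : Dat W σ s a b) {x i i' : Fin (n + 1)} {e : ℤ} (hx : a < (w x).1)
    (hx' : (w x).1 < b) (ox : evv s (ee x : Fin (n + 1) → ℂ) ≠ 0) (hii : i ≠ i')
    (hi : (w i).1 = e) (hi' : (w i').1 = e) (he : (w x).1 ≠ e) :
    ∃ u : Fin (n + 1) → ℂ, u ≠ 0 ∧ Fixed w u e ∧ evv s u = 0 := by
  by_contra hcon
  push Not at hcon
  have hxi : x ≠ i := by
    rintro rfl
    exact he hi
  have hxi' : x ≠ i' := by
    rintro rfl
    exact he hi'
  let f : Fin (2 + 1) → Fin (n + 1) := ![x, i, i']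
  have hfi : Function.Injective f := by
    intro a b hab
    fin_cases a <;> fin_cases b <;> simp [f] at hab ⊢ <;> first | exact hxi hab | exact hxi' hab | exact hii hab | exact hxi hab.symm | exact hxi' hab.symm | exact hii hab.symm
  refine no_free_plane (by have := H.hn; omega) H.hE H.hs f hfi ?_
  intro z v hz hfz h0
  have hfz' := fixed_cInc f hfz
  have hzne : cInc f z ≠ 0 := T_ne (cInc_injective f hfi) hz
  obtain ⟨t, ht⟩ : ∃ t, z t ≠ 0 := by
    by_contra hc
    push Not at hc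
    exact hz (funext hc)
  have h1 : (w (f t)).1 = v := hfz t ht
  fin_cases t
  · have h2 : (w x).1 = v := h1
    have h3 := ee_fixed w x
    rw [h2] at h3
    exact ox (H.const hzne (ee_ne x) hfz' h3 (by omega) (by omega) h0)
  · have h2 : (w i).1 = v := h1
    rw [← h2, hi] at hfz'
    exact hcon _ hzne hfz' h0
  · have h2 : (w i').1 = v := h1
    rw [← h2, hi'] at hfz'
    exact hcon _ hzne hfz' h0

/-- **The equivariant case.**  A bundle of rank two on `P^n`, `n ≥ 6`, with a nontrivial action of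
a one-dimensional torus, and with a semi-invariant section whose zero locus is smooth of
codimension two, splits. -/
theorem torus_six (hn : 6 ≤ n) (D : EqB E w) (hw2 : ∀ i, (w i).2 = 0) (hb2 : ∀ i, (D.b i).2 = 0)
    (hw : ∃ i j, (w i).1 ≠ (w j).1) {σ : M} {s : Vec E.a n} (hs : HSec D σ s)
    (hsm : SmoothF w s) : E.Splits := by
  classical
  by_contra hE
  obtain ⟨W⟩ := exists_wedge (by omega) D
  obtain ⟨ia, -, hmin⟩ := Finset.exists_min_image Finset.univ (fun l => (w l).1)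
    ⟨0, Finset.mem_univ _⟩
  obtain ⟨ib, -, hmax⟩ := Finset.exists_max_image Finset.univ (fun l => (w l).1)
    ⟨0, Finset.mem_univ _⟩
  obtain ⟨a, ha⟩ : ∃ a, a = (w ia).1 := ⟨_, rfl⟩
  obtain ⟨b, hb⟩ : ∃ b, b = (w ib).1 := ⟨_, rfl⟩
  have H : Dat W σ s a b :=
    { hn := by omega
      hE := hE
      hs := hs
      hsm := hsm
      hw2 := hw2
      hb2 := hb2
      ha := fun l => by rw [ha]; exact hmin l (Finset.mem_univ l)
      hb := fun l => by rw [hb]; exact hmax l (Finset.mem_univ l)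
      ha' := ⟨ia, ha.symm⟩
      hb' := ⟨ib, hb.symm⟩
      hab := by
        obtain ⟨i, j, hij⟩ := hw
        have h1 := hmin i (Finset.mem_univ i)
        have h2 := hmin j (Finset.mem_univ j)
        have h3 := hmax i (Finset.mem_univ i)
        have h4 := hmax j (Finset.mem_univ j)
        omega }
  have hab := H.hab
  set SA : Finset (Fin (n + 1)) := Finset.univ.filter fun l => (w l).1 = a with hSA
  set SB : Finset (Fin (n + 1)) := Finset.univ.filter fun l => (w l).1 = b with hSB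
  set SI : Finset (Fin (n + 1)) := Finset.univ.filter fun l => a < (w l).1 ∧ (w l).1 < b ∧
    evv s (ee l : Fin (n + 1) → ℂ) = 0 with hSI
  set SO : Finset (Fin (n + 1)) := Finset.univ.filter fun l => a < (w l).1 ∧ (w l).1 < b ∧
    evv s (ee l : Fin (n + 1) → ℂ) ≠ 0 with hSO
  have mA : ∀ l, l ∈ SA ↔ (w l).1 = a := fun l => by
    rw [hSA, Finset.mem_filter]
    exact ⟨fun h => h.2, fun h => ⟨Finset.mem_univ _, h⟩⟩
  have mB : ∀ l, l ∈ SB ↔ (w l).1 = b := fun l => by
    rw [hSB, Finset.mem_filter]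
    exact ⟨fun h => h.2, fun h => ⟨Finset.mem_univ _, h⟩⟩
  have mI : ∀ l, l ∈ SI ↔ (a < (w l).1 ∧ (w l).1 < b ∧
      evv s (ee l : Fin (n + 1) → ℂ) = 0) := fun l => by
    rw [hSI, Finset.mem_filter]
    exact ⟨fun h => h.2, fun h => ⟨Finset.mem_univ _, h⟩⟩
  have mO : ∀ l, l ∈ SO ↔ (a < (w l).1 ∧ (w l).1 < b ∧
      evv s (ee l : Fin (n + 1) → ℂ) ≠ 0) := fun l => by
    rw [hSO, Finset.mem_filter]
    exact ⟨fun h => h.2, fun h => ⟨Finset.mem_univ _, h⟩⟩
  have cA : SA.card ≤ 2 := by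
    by_contra hc
    obtain ⟨x, y, z, hx, hy, hz, hxy, hxz, hyz⟩ := Finset.two_lt_card_iff.1 (by omega : 2 < SA.card)
    rw [mA] at hx hy hz
    exact H.mult hxy hxz hyz (by omega) (by omega)
  have cB : SB.card ≤ 2 := by
    by_contra hc
    obtain ⟨x, y, z, hx, hy, hz, hxy, hxz, hyz⟩ := Finset.two_lt_card_iff.1 (by omega : 2 < SB.card)
    rw [mB] at hx hy hz
    exact H.mult hxy hxz hyz (by omega) (by omega)
  have cI : SI.card ≤ 2 := by
    by_contra hc
    obtain ⟨x, y, z, hx, hy, hz, hxy, hxz, hyz⟩ := Finset.two_lt_card_iff.1 (by omega : 2 < SI.card)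
    rw [mI] at hx hy hz
    exact H.mid_three hxy hxz hyz hx.1 hx.2.1 hy.1 hy.2.1 hz.1 hz.2.1 hx.2.2 hy.2.2 hz.2.2
  have cO : SO.card ≤ 2 := by
    by_contra hc
    obtain ⟨x, y, z, hx, hy, hz, hxy, hxz, hyz⟩ := Finset.two_lt_card_iff.1 (by omega : 2 < SO.card)
    rw [mO] at hx hy hz
    exact H.free hxy hxz hyz hx.1 hx.2.1 hy.1 hy.2.1 hx.2.2 hy.2.2 hz.2.2
  have hcov : (Finset.univ : Finset (Fin (n + 1))) ⊆ (SA ∪ SB) ∪ (SI ∪ SO) := by
    intro l _
    rw [Finset.mem_union, Finset.mem_union, Finset.mem_union, mA, mB, mI, mO]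
    have h1 := H.ha l
    have h2 := H.hb l
    by_cases h3 : (w l).1 = a
    · exact Or.inl (Or.inl h3)
    · by_cases h4 : (w l).1 = b
      · exact Or.inl (Or.inr h4)
      · right
        by_cases h5 : evv s (ee l : Fin (n + 1) → ℂ) = 0
        · exact Or.inl ⟨by omega, by omega, h5⟩
        · exact Or.inr ⟨by omega, by omega, h5⟩
  have hcard := Finset.card_le_card hcov
  rw [Finset.card_univ, Fintype.card_fin] at hcard
  have u1 := Finset.card_union_le (SA ∪ SB) (SI ∪ SO)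
  have u2 := Finset.card_union_le SA SB
  have u3 := Finset.card_union_le SI SO
  obtain ⟨p, hpI⟩ := Finset.card_pos.1 (by omega : 0 < SI.card)
  obtain ⟨x, hxO⟩ := Finset.card_pos.1 (by omega : 0 < SO.card)
  have hp := (mI p).1 hpI
  have hx := (mO x).1 hxO
  have hdeg := H.degree hp.1 hp.2.1 hx.1 hx.2.1 hp.2.2 hx.2.2
  -- zeros at the extreme weights
  have hzero : ∀ (S : Finset (Fin (n + 1))) (e : ℤ), (∀ l, l ∈ S ↔ (w l).1 = e) →
      (e = a ∨ e = b) → 0 < S.card → (2 ≤ S.card ∨ 2 ≤ SO.card) →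
      ∃ u : Fin (n + 1) → ℂ, u ≠ 0 ∧ Fixed w u e ∧ evv s u = 0 := by
    intro S e hS he h1 h2
    rcases h2 with h2 | h2
    · obtain ⟨i, hi, i', hi', hii⟩ := Finset.one_lt_card.1 (by omega : 1 < S.card)
      refine exists_zero H hx.1 hx.2.1 hx.2.2 hii ((hS i).1 hi) ((hS i').1 hi') ?_
      rcases he with he | he <;> omega
    · obtain ⟨x', hx', y, hy, hxy⟩ := Finset.one_lt_card.1 (by omega : 1 < SO.card)
      obtain ⟨i, hi⟩ := Finset.card_pos.1 h1
      have hx2 := (mO x').1 hx'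
      have hy2 := (mO y).1 hy
      have hi2 := (hS i).1 hi
      refine ⟨ee i, ee_ne i, ?_, ?_⟩
      · have := ee_fixed w i
        rwa [hi2] at this
      · by_contra ho
        refine H.free hxy ?_ ?_ hx2.1 hx2.2.1 hy2.1 hy2.2.1 hx2.2.2 hy2.2.2 ho
        · rintro rfl
          rcases he with he | he <;> omega
        · rintro rfl
          rcases he with he | he <;> omega
  have nA : 0 < SA.card := Finset.card_pos.2 ⟨ia, (mA ia).2 ha.symm⟩
  have nB : 0 < SB.card := Finset.card_pos.2 ⟨ib, (mB ib).2 hb.symm⟩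
  obtain ⟨u, hu0, huf, hus⟩ := hzero SA a mA (Or.inl rfl) nA (by omega)
  obtain ⟨u', hu0', huf', hus'⟩ := hzero SB b mB (Or.inr rfl) nB (by omega)
  obtain ⟨A, B, hT⟩ := Ty.exists W hu0 a
  obtain ⟨A', B', hT'⟩ := Ty.exists W hu0' b
  have s1 := Dat.sum (σ := σ) huf hT
  have s2 := Dat.sum (σ := σ) huf' hT'
  obtain ⟨r, r', hrr, e1, e2, -⟩ := type_in W hs hu0 huf hT hus (hsm _ _ hu0 huf hus)
  obtain ⟨t, t', htt, e3, e4, -⟩ := type_in W hs hu0' huf' hT' hus' (hsm _ _ hu0' huf' hus')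
  have b1 := H.hb r
  have b2 := H.hb r'
  have b3 := H.ha r
  have b4 := H.ha r'
  have b5 := H.ha t
  have b6 := H.ha t'
  have b7 := H.hb t
  have b8 := H.hb t'
  set X := σ + σ + W.κ with hX
  set c := X.1 with hc
  have hcW : (b - a) * c = ((w r).1 - a) + ((w r').1 - a) - ((w t).1 - b) - ((w t').1 - b) := by
    rw [e1, e2] at s1
    rw [e3, e4] at s2
    linear_combination s2 - s1
  have hc0 : 0 ≤ c := by
    by_contra hcon
    push Not at hcon
    have : (b - a) * c < 0 := mul_neg_of_pos_of_neg (by omega) hcon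
    omega
  have hc4 : 4 ≤ c := by omega
  have hc4' : (b - a) * 4 ≤ (b - a) * c := mul_le_mul_of_nonneg_left hc4 (by omega)
  have wr : (w r).1 = b := by omega
  have wr' : (w r').1 = b := by omega
  have wt : (w t).1 = a := by omega
  have wt' : (w t').1 = a := by omega
  have hft : Fixed w (ee t : Fin (n + 1) → ℂ) a := by
    have := ee_fixed w t
    rwa [wt] at this
  obtain ⟨A₁, B₁, hT₁⟩ := Ty.exists W (ee_ne t) a
  have h1 : chi a σ - A₁ = b - a ∧ chi a σ - B₁ = b - a := by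
    rcases Ty.unique W hu0 huf hft hT hT₁ with ⟨e5, e6⟩ | ⟨e5, e6⟩
    · rw [← e5, ← e6]
      constructor <;> omega
    · rw [← e5, ← e6]
      constructor <;> omega
  refine no_double W hs hsm htt wt wt' hab hT₁ h1.1 h1.2 (l₀ := r) (l₀' := r') ?_ ?_
  · intro l hl
    by_contra hcon
    push Not at hcon
    have h2 : 2 < SB.card := Finset.two_lt_card_iff.2
      ⟨l, r, r', (mB l).2 hl, (mB r).2 wr, (mB r').2 wr', hcon.1, hcon.2, hrr⟩
    omega
  · show c ≠ 2
    omega

end Pool.Agent.T6.H20.CT
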